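import Pool.Agent.V11290.TI.A5
import Pool.Agent.TH212.DV.C12

set_option autoImplicit false

/-! The first moment over families of residues of nearly minimal energy, weights bounded by divisor functions. -/

namespace Pool.Agent.V11290.TD
open Finset
open Pool.Agent.TH212.DV
open Pool.Agent.TH212.PL (En)
open Pool.Agent.H373R2.T7 (energy)
open Pool.Agent.V11290.TI

/-- the larger scale -/
def big (B N : ℕ) : ℕ := 2 * (B + 1) * N

theorem mom2 (p B C c t k U : ℕ) (hk : 2 ≤ k) : ∃ B0 : ℕ, ∀ E : ℕ, ∃ N₀ : ℕ, ∀ N : ℕ, N₀ ≤ N → ∀ (x : ℕ) (s : ℕ → ℤ),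
    (∀ m ∈ Icc 1 x, |s m| ≤ B * N) → (energy p x s : ℝ) * N ≤ Real.log N ^ C * (x : ℝ) ^ (2 * p) →
    ∀ z : ℕ, Real.log N ^ B0 ≤ z → (z : ℝ) ≤ Real.log N ^ E → ∀ X : ℕ, X ≤ B * N →
    ∀ g : ℕ → ℝ, ∑ n ∈ Icc 1 X, g n ^ 2 ≤ N * Real.log N ^ c → ∀ W : ℕ → ℝ, (∀ d, 0 ≤ W d) → (∀ d, W d ≤ (t + 2) * dk (t + 1) d) →
    ∑ m ∈ Icc 1 x, |dif W (big B N / yk k (big B N)) z X g (s m)| ≤ N * x / Real.log N ^ U := by
  classical
  obtain ⟨c1, hc1⟩ := l2_bounds t
  obtain ⟨U', n1, h1⟩ := fam_l2 p 2 (C + 1) (c1 + 1) c (U + 1)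
  obtain ⟨B0, hKB⟩ := sup_small t k U' hk
  refine ⟨B0 + 1, fun E => ?_⟩
  obtain ⟨n2, h2⟩ := hKB E
  obtain ⟨n3, h3⟩ := hc1 E
  obtain ⟨R, hR⟩ : ∃ R : ℕ, R = 2 * (B + 1) := ⟨_, rfl⟩
  obtain ⟨n4, h4⟩ := ev_log (2 ^ B0 + 8 * R + 4 : ℝ)
  obtain ⟨n5, h5⟩ := ev_pow E 1 1 one_pos
  refine ⟨n1 + n2 + n3 + n4 + n5 + R + 3, fun N hN x s hs hE z hz1 hz2 X hX g hg W hW0 hW => ?_⟩
  have a4 := h4 N (by omega)
  have a5 := h5 N (by omega)
  have hN1 : 1 ≤ N := by omega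
  have hN0 : (0 : ℝ) < N := by exact_mod_cast hN1
  obtain ⟨N', hN'⟩ : ∃ N' : ℕ, N' = R * N := ⟨_, rfl⟩
  have hbig : big B N = N' := by rw [hN', hR]; rfl
  rw [hbig]
  have hR1 : 1 ≤ R := by omega
  have hNN' : N ≤ N' := by rw [hN']; exact Nat.le_mul_of_pos_left _ hR1
  have hNN'r : (N : ℝ) ≤ N' := by exact_mod_cast hNN'
  have hN'r : (N' : ℝ) = R * N := by rw [hN']; push_cast; ring
  have hN'0 : (0 : ℝ) < N' := by linarith
  obtain ⟨L, hL⟩ : ∃ L, L = Real.log (N : ℝ) := ⟨_, rfl⟩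
  obtain ⟨L', hL'⟩ : ∃ L', L' = Real.log (N' : ℝ) := ⟨_, rfl⟩
  rw [← hL] at a4 a5 hE hz1 hz2 hg ⊢
  have hRr : (1 : ℝ) ≤ R := by exact_mod_cast hR1
  have hp0 : (0 : ℝ) ≤ 2 ^ B0 := by positivity
  have hL1 : 4 ≤ L := by linarith
  have hL0 : 0 < L := by linarith
  have hLL' : L ≤ L' := by rw [hL, hL']; exact Real.log_le_log hN0 hNN'r
  have hL'2 : L' ≤ 2 * L := by
    rw [hL', hN'r, Real.log_mul (by positivity) hN0.ne', ← hL]
    have : Real.log R ≤ L := by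
      rw [hL]
      exact Real.log_le_log (by linarith) (by exact_mod_cast (by omega : R ≤ N))
    linarith
  have hL'1 : 1 ≤ L' := by linarith
  have hL'0 : 0 < L' := by linarith
  have hx0 : (0 : ℝ) ≤ x := Nat.cast_nonneg _
  -- the hypotheses at the larger scale
  have hz1' : L' ^ B0 ≤ z := by
    refine le_trans ?_ hz1
    calc L' ^ B0 ≤ (2 * L) ^ B0 := pow_le_pow_left₀ hL'0.le hL'2 _
      _ = 2 ^ B0 * L ^ B0 := mul_pow _ _ _
      _ ≤ L * L ^ B0 := mul_le_mul_of_nonneg_right (by linarith) (by positivity)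
      _ = _ := by rw [pow_succ]; ring
  have hz2' : (z : ℝ) ≤ L' ^ E := hz2.trans (pow_le_pow_left₀ hL0.le hLL' _)
  have hz0 : 1 ≤ z := by
    have : (1 : ℝ) ≤ z := (one_le_pow₀ hL'1).trans hz1'
    exact_mod_cast this
  have hDN : N' / yk k N' ≤ N' := Nat.div_le_self _ _
  have hBN : B * N ≤ N' := by rw [hN', hR]; exact Nat.mul_le_mul_right _ (by omega)
  have h2BN : 2 * (B * N) + 2 * N = N' := by rw [hN', hR]; ring
  have hXN : X ≤ N' := hX.trans hBN
  have hsup := h2 N' (by omega) z (by rw [← hL']; exact hz1') (by rw [← hL']; exact hz2') W hW0 hW N' le_rfl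
  have hl2 := h3 N' (by omega) z hz0 (by rw [← hL']; exact hz2') (N' / yk k N') hDN W hW0 hW
  have hff : ∑ n ∈ Icc 1 N', (ff W (N' / yk k N') z n) ^ 2 ≤ N' * Real.log N' ^ (c1 + 1) := by
    obtain ⟨l1, l2⟩ := hl2
    have l2' := l2 N' le_rfl
    rw [← hL'] at l1 l2' ⊢
    calc ∑ n ∈ Icc 1 N', (ff W (N' / yk k N') z n) ^ 2 ≤
          ∑ n ∈ Icc 1 N', (2 * FF W (N' / yk k N') n ^ 2 + 2 * MM W (N' / yk k N') z (n : ℤ) ^ 2) := by
          apply sum_le_sum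
          intro n _
          unfold ff
          nlinarith [sq_nonneg (FF W (N' / yk k N') n + MM W (N' / yk k N') z (n : ℤ))]
      _ = 2 * ∑ n ∈ Icc 1 N', FF W (N' / yk k N') n ^ 2 + 2 * ∑ n ∈ Icc 1 N', MM W (N' / yk k N') z (n : ℤ) ^ 2 := by
          rw [sum_add_distrib, ← mul_sum, ← mul_sum]
      _ ≤ 2 * (N' * L' ^ c1) + 2 * (N' * L' ^ c1) := by linarith
      _ = 4 * (N' * L' ^ c1) := by ring
      _ ≤ L' * (N' * L' ^ c1) := mul_le_mul_of_nonneg_right (by linarith) (by positivity)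
      _ = _ := by rw [pow_succ]; ring
  generalize hD : N' / yk k N' = D at hsup hff hDN ⊢
  have hXz : (X : ℤ) ≤ B * N := by exact_mod_cast hX
  have h2z : 2 * ((B : ℤ) * N) + 2 * N = N' := by exact_mod_cast h2BN
  have hNz : (1 : ℤ) ≤ N := by exact_mod_cast hN1
  have hX0 : (0 : ℤ) ≤ X := by positivity
  have hgen : ∀ (σ cc : ℤ), (σ = 1 ∨ σ = -1) → (∀ m ∈ Icc 1 x, |σ * s m + cc| ≤ 2 * (N' : ℤ)) → ∀ G : ℕ → ℝ,
      ∑ n ∈ Icc 1 X, G n ^ 2 ≤ N * L ^ c →
      ∑ m ∈ Icc 1 x, |∑ n ∈ Icc 1 X, G n * (if 1 ≤ (n : ℤ) + (σ * s m + cc) ∧ (n : ℤ) + (σ * s m + cc) ≤ N'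
        then ff W D z ((n : ℤ) + (σ * s m + cc)).toNat else 0)| ≤ N * x / L ^ U / 2 := by
    intro σ cc hσ hb G hG
    have q1 := h1 N' (by omega) (Fin x) (fun i : Fin x => σ * s ((i : ℕ) + 1) + cc) (by
      intro i
      refine (hb _ (mem_Icc.2 ⟨by omega, i.2⟩)).trans (le_of_eq ?_)
      push_cast
      ring) (by
      rw [← hL', Fintype.card_fin]
      have q2 : (En p (fun i : Fin x => σ * s ((i : ℕ) + 1) + cc) : ℝ) ≤ energy p x s := by exact_mod_cast En_fin p x s σ cc hσ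
      calc (En p (fun i : Fin x => σ * s ((i : ℕ) + 1) + cc) : ℝ) * N' ≤ energy p x s * N' :=
            mul_le_mul_of_nonneg_right q2 hN'0.le
        _ = R * (energy p x s * N) := by rw [hN'r]; ring
        _ ≤ R * (L ^ C * (x : ℝ) ^ (2 * p)) := mul_le_mul_of_nonneg_left hE (by positivity)
        _ ≤ L' * (L' ^ C * (x : ℝ) ^ (2 * p)) := by
            apply mul_le_mul (by linarith) _ (by positivity) hL'0.le
            apply mul_le_mul_of_nonneg_right _ (by positivity)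
            exact pow_le_pow_left₀ hL0.le hLL' _
        _ = _ := by rw [pow_succ]; ring) X N' hXN le_rfl G (ff W D z) (by
      rw [← hL']
      refine hG.trans ?_
      apply mul_le_mul hNN'r _ (by positivity) hN'0.le
      exact pow_le_pow_left₀ hL0.le hLL' _) (by rw [← hL'] at hff ⊢; exact hff) hsup
    rw [← hL', Fintype.card_fin] at q1
    rw [sum_fin]
    refine q1.trans ?_
    rw [hN'r]
    calc (R : ℝ) * N * x / L' ^ (U + 1) ≤ (R : ℝ) * N * x / L ^ (U + 1) := by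
          apply div_le_div_of_nonneg_left (by positivity) (by positivity)
          exact pow_le_pow_left₀ hL0.le hLL' _
      _ = (R / L) * (N * x / L ^ U) := by rw [pow_succ]; field_simp
      _ ≤ (1 / 2) * (N * x / L ^ U) := by
          apply mul_le_mul_of_nonneg_right _ (by positivity)
          rw [div_le_div_iff₀ hL0 (by norm_num)]
          linarith
      _ = _ := by ring
  have hsb : ∀ m ∈ Icc 1 x, -(B * N : ℤ) ≤ s m ∧ s m ≤ B * N := fun m hm => abs_le.1 (hs m hm)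
  have t1 := hgen (-1) 0 (Or.inr rfl) (by
    intro m hm
    obtain ⟨b1, b2⟩ := hsb m hm
    rw [abs_le]
    constructor <;> linarith) g hg
  have t2 := hgen 1 (-(X : ℤ) - 1) (Or.inl rfl) (by
    intro m hm
    obtain ⟨b1, b2⟩ := hsb m hm
    rw [abs_le]
    constructor <;> linarith) (fun n => g (X + 1 - n)) (by
    refine le_trans (le_of_eq ?_) hg
    apply sum_nbij' (fun n => X + 1 - n) (fun n => X + 1 - n)
    · intro n hn
      rw [mem_Icc] at hn ⊢
      omega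
    · intro n hn
      rw [mem_Icc] at hn ⊢
      omega
    · intro n hn
      rw [mem_Icc] at hn
      omega
    · intro n hn
      rw [mem_Icc] at hn
      omega
    · intro n hn
      rfl)
  calc ∑ m ∈ Icc 1 x, |dif W D z X g (s m)| ≤
      ∑ m ∈ Icc 1 x, (|∑ n ∈ Icc 1 X, g n * (if 1 ≤ (n : ℤ) + (-1 * s m + 0) ∧ (n : ℤ) + (-1 * s m + 0) ≤ N'
        then ff W D z ((n : ℤ) + (-1 * s m + 0)).toNat else 0)| +
        |∑ n ∈ Icc 1 X, g (X + 1 - n) * (if 1 ≤ (n : ℤ) + (1 * s m + (-(X : ℤ) - 1)) ∧ (n : ℤ) + (1 * s m + (-(X : ℤ) - 1)) ≤ N'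
        then ff W D z ((n : ℤ) + (1 * s m + (-(X : ℤ) - 1))).toNat else 0)|) := by
        apply sum_le_sum
        intro m hm
        rw [dif_split W D z X N' g (s m) (by
          intro n hn
          rw [mem_Icc] at hn
          obtain ⟨b1, b2⟩ := hsb m hm
          have b3 : (n : ℤ) ≤ X := by exact_mod_cast hn.2
          have b4 : (1 : ℤ) ≤ n := by exact_mod_cast hn.1
          rw [abs_le]
          constructor <;> linarith)]
        exact abs_add_le _ _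
    _ ≤ N * x / L ^ U / 2 + N * x / L ^ U / 2 := by
        rw [sum_add_distrib]
        exact add_le_add t1 t2
    _ = _ := by ring

end Pool.Agent.V11290.TD
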