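import Pool.Agent.V11290.TD.T1
import Pool.Agent.TH212.DV.C17

set_option autoImplicit false

/-! The local constants in the divisor problem of Titchmarsh type. -/

namespace Pool.Agent.V11290.TD
open Finset
open Pool.Agent.TH212.DV
open Pool.Agent.V11290.TI

lemma anti_le (F : ℕ → ℕ → ℝ) (hF : ∀ j k, 0 ≤ F j k) (z : ℕ) :
    ∑ r ∈ Icc 1 z, ∑ x ∈ r.divisorsAntidiagonal, F x.1 x.2 ≤ ∑ j ∈ Icc 1 z, ∑ k ∈ Icc 1 z, F j k := by
  classical
  rw [← sum_product', ← sum_biUnion]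
  · apply sum_le_sum_of_subset_of_nonneg
    · intro x hx
      rw [mem_biUnion] at hx
      obtain ⟨r, hr, hx⟩ := hx
      rw [mem_Icc] at hr
      rw [Nat.mem_divisorsAntidiagonal] at hx
      have hx1 : 1 ≤ x.1 := Nat.pos_of_ne_zero (by rintro h; rw [h, zero_mul] at hx; omega)
      have hx2 : 1 ≤ x.2 := Nat.pos_of_ne_zero (by rintro h; rw [h, mul_zero] at hx; omega)
      have hx3 : x.1 ≤ r := by rw [← hx.1]; exact Nat.le_mul_of_pos_right _ hx2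
      have hx4 : x.2 ≤ r := by rw [← hx.1]; exact Nat.le_mul_of_pos_left _ hx1
      rw [mem_product, mem_Icc, mem_Icc]
      exact ⟨⟨hx1, by omega⟩, hx2, by omega⟩
    · intro x _ _
      exact hF _ _
  · intro r _ r' _ hne
    rw [Function.onFun, disjoint_left]
    intro x hx hx'
    rw [Nat.mem_divisorsAntidiagonal] at hx hx'
    exact hne (hx.1.symm.trans hx'.1)

lemma ha_zero (a : ℕ) : ha a 0 = 0 := by unfold ha; simp

lemma ha_core : ∃ Z : ℝ, 0 ≤ Z ∧ ∀ a : ℕ, 1 ≤ a → ∀ z : ℕ, ∑ r ∈ Icc 1 z, (r : ℝ) ^ (-(3 / 4) : ℝ) * |ha a r| ≤ Z * sg a := by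
  obtain ⟨C, hC, hd⟩ := H353.divisor_bound_real (1 / 8) (by norm_num)
  have hs : Summable (fun n : ℕ => (n : ℝ) ^ (-(13 / 8) : ℝ)) := by
    rw [Real.summable_nat_rpow]
    norm_num
  have hT0 : 0 ≤ ∑' n : ℕ, (n : ℝ) ^ (-(13 / 8) : ℝ) := tsum_nonneg fun n => Real.rpow_nonneg (Nat.cast_nonneg _) _
  refine ⟨C * ∑' n : ℕ, (n : ℝ) ^ (-(13 / 8) : ℝ), by positivity, fun a ha1 z => ?_⟩
  obtain ⟨w, hw⟩ : ∃ w : ℕ → ℕ → ℝ, w = fun (j k : ℕ) => if j ∣ a then (j : ℝ) ^ (-(3 / 4) : ℝ) * ((k : ℝ) ^ (-(3 / 4) : ℝ) * (1 / (Nat.totient k : ℝ))) else 0 := ⟨_, rfl⟩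
  have hw0 : ∀ j k, 0 ≤ w j k := by
    intro j k
    rw [hw]
    simp only
    split_ifs <;> positivity
  have h1 : ∀ r ∈ Icc 1 z, (r : ℝ) ^ (-(3 / 4) : ℝ) * |ha a r| ≤ ∑ x ∈ r.divisorsAntidiagonal, w x.1 x.2 := by
    intro r hr
    rw [mem_Icc] at hr
    refine (mul_le_mul_of_nonneg_left (ha_abs a r ha1 hr.1) (by positivity)).trans (le_of_eq ?_)
    rw [mul_sum]
    apply sum_congr rfl
    intro x hx
    rw [Nat.mem_divisorsAntidiagonal] at hx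
    have e1 : (r : ℝ) ^ (-(3 / 4) : ℝ) = (x.1 : ℝ) ^ (-(3 / 4) : ℝ) * (x.2 : ℝ) ^ (-(3 / 4) : ℝ) := by
      rw [← Real.mul_rpow (Nat.cast_nonneg _) (Nat.cast_nonneg _), ← hx.1]
      push_cast
      rfl
    rw [hw, e1]
    simp only
    split_ifs
    · ring
    · rw [mul_zero]
  refine (sum_le_sum h1).trans ((anti_le w hw0 z).trans ?_)
  have hk : ∑ k ∈ Icc 1 z, (k : ℝ) ^ (-(3 / 4) : ℝ) * (1 / (Nat.totient k : ℝ)) ≤ C * ∑' n : ℕ, (n : ℝ) ^ (-(13 / 8) : ℝ) := by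
    have h2 : ∀ k ∈ Icc 1 z, (k : ℝ) ^ (-(3 / 4) : ℝ) * (1 / (Nat.totient k : ℝ)) ≤ C * (k : ℝ) ^ (-(13 / 8) : ℝ) := by
      intro k hk
      rw [mem_Icc] at hk
      have hk0 : (0 : ℝ) < k := by exact_mod_cast (by omega : 0 < k)
      have h3 := Pool.Agent.W93.LV.inv_phi_le k (by omega)
      have h4 := hd k (by omega)
      calc (k : ℝ) ^ (-(3 / 4) : ℝ) * (1 / (Nat.totient k : ℝ)) ≤ (k : ℝ) ^ (-(3 / 4) : ℝ) * ((C * (k : ℝ) ^ (1 / 8 : ℝ)) / k) := by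
            apply mul_le_mul_of_nonneg_left _ (by positivity)
            exact h3.trans (div_le_div_of_nonneg_right h4 hk0.le)
        _ = C * ((k : ℝ) ^ (-(3 / 4) : ℝ) * (k : ℝ) ^ (1 / 8 : ℝ) * (k : ℝ) ^ (-1 : ℝ)) := by
            rw [Real.rpow_neg_one]
            ring
        _ = _ := by rw [← Real.rpow_add hk0, ← Real.rpow_add hk0]; norm_num
    refine (sum_le_sum h2).trans ?_
    rw [← mul_sum]
    exact mul_le_mul_of_nonneg_left (hs.sum_le_tsum _ fun n _ => Real.rpow_nonneg (Nat.cast_nonneg _) _) hC.le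
  have hj : ∑ j ∈ Icc 1 z, (if j ∣ a then (j : ℝ) ^ (-(3 / 4) : ℝ) else 0) ≤ sg a := by
    rw [← sum_filter]
    unfold sg
    have h2 : ∀ j ∈ (Icc 1 z).filter (fun j => j ∣ a), (j : ℝ) ^ (-(3 / 4) : ℝ) ≤ (j : ℝ) ^ (-(1 / 2) : ℝ) := by
      intro j hj
      rw [mem_filter, mem_Icc] at hj
      exact Real.rpow_le_rpow_of_exponent_le (by exact_mod_cast hj.1.1) (by norm_num)
    refine (sum_le_sum h2).trans ?_
    apply sum_le_sum_of_subset_of_nonneg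
    · intro j hj
      rw [mem_filter] at hj
      rw [Nat.mem_divisors]
      exact ⟨hj.2, by omega⟩
    · intro j _ _
      positivity
  calc ∑ j ∈ Icc 1 z, ∑ k ∈ Icc 1 z, w j k =
        (∑ j ∈ Icc 1 z, (if j ∣ a then (j : ℝ) ^ (-(3 / 4) : ℝ) else 0)) * ∑ k ∈ Icc 1 z, (k : ℝ) ^ (-(3 / 4) : ℝ) * (1 / (Nat.totient k : ℝ)) := by
        rw [sum_mul_sum]
        apply sum_congr rfl
        intro j _
        apply sum_congr rfl
        intro k _
        rw [hw]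
        simp only
        split_ifs
        · rfl
        · rw [zero_mul]
    _ ≤ sg a * (C * ∑' n : ℕ, (n : ℝ) ^ (-(13 / 8) : ℝ)) :=
        mul_le_mul hj hk (sum_nonneg fun k _ => by positivity) (sg_nonneg a)
    _ = _ := by ring

/-- the averages with divisor functions -/
theorem ha_sums (t : ℕ) : ∃ Cs : ℝ, 0 ≤ Cs ∧ ∀ a : ℕ, 1 ≤ a → ∀ z : ℕ,
    ∑ q ∈ Icc 1 z, (dk (t + 1) q : ℝ) / q * |ha a q| ≤ Cs * sg a ∧
    ∀ K : ℕ, 1 ≤ K → ∑ q ∈ Ioc K z, (dk (t + 1) q : ℝ) / q * |ha a q| ≤ Cs * (K : ℝ) ^ (-(1 / 8) : ℝ) * sg a := by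
  obtain ⟨C, hC1, hC⟩ := dk_eps (t + 1) (1 / 8) (by norm_num)
  obtain ⟨Z, hZ0, hZ⟩ := ha_core
  have hb : ∀ q : ℕ, 1 ≤ q → (dk (t + 1) q : ℝ) / q ≤ C * (q : ℝ) ^ (-(7 / 8) : ℝ) := by
    intro q hq
    have hq0 : (0 : ℝ) < q := by exact_mod_cast hq
    rw [div_le_iff₀ hq0]
    calc (dk (t + 1) q : ℝ) ≤ C * (q : ℝ) ^ (1 / 8 : ℝ) := hC q hq
      _ = C * ((q : ℝ) ^ (-(7 / 8) : ℝ) * (q : ℝ) ^ (1 : ℝ)) := by rw [← Real.rpow_add hq0]; norm_num
      _ = _ := by rw [Real.rpow_one]; ring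
  refine ⟨C * Z, by positivity, fun H hH z => ⟨?_, fun K hK => ?_⟩⟩
  · have h1 : ∀ q ∈ Icc 1 z, (dk (t + 1) q : ℝ) / q * |ha H q| ≤ C * ((q : ℝ) ^ (-(3 / 4) : ℝ) * |ha H q|) := by
      intro q hq
      rw [mem_Icc] at hq
      have hq1 : (1 : ℝ) ≤ q := by exact_mod_cast hq.1
      have h2 : (q : ℝ) ^ (-(7 / 8) : ℝ) ≤ (q : ℝ) ^ (-(3 / 4) : ℝ) := Real.rpow_le_rpow_of_exponent_le hq1 (by norm_num)
      have h3 : (dk (t + 1) q : ℝ) / q ≤ C * (q : ℝ) ^ (-(3 / 4) : ℝ) := (hb q hq.1).trans (mul_le_mul_of_nonneg_left h2 (by positivity))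
      calc _ ≤ C * (q : ℝ) ^ (-(3 / 4) : ℝ) * |ha H q| := mul_le_mul_of_nonneg_right h3 (abs_nonneg _)
        _ = _ := by ring
    refine (sum_le_sum h1).trans ?_
    rw [← mul_sum]
    calc _ ≤ C * (Z * sg H) := mul_le_mul_of_nonneg_left (hZ H hH z) (by positivity)
      _ = _ := by ring
  · have hK0 : (0 : ℝ) < K := by exact_mod_cast hK
    have h1 : ∀ q ∈ Ioc K z, (dk (t + 1) q : ℝ) / q * |ha H q| ≤
        C * (K : ℝ) ^ (-(1 / 8) : ℝ) * ((q : ℝ) ^ (-(3 / 4) : ℝ) * |ha H q|) := by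
      intro q hq
      rw [mem_Ioc] at hq
      have hq1 : (1 : ℝ) ≤ q := by exact_mod_cast (by omega : 1 ≤ q)
      have hKq : (K : ℝ) ≤ q := by exact_mod_cast hq.1.le
      have h2 : (q : ℝ) ^ (-(7 / 8) : ℝ) ≤ (K : ℝ) ^ (-(1 / 8) : ℝ) * (q : ℝ) ^ (-(3 / 4) : ℝ) := by
        have e : (q : ℝ) ^ (-(7 / 8) : ℝ) = (q : ℝ) ^ (-(1 / 8) : ℝ) * (q : ℝ) ^ (-(3 / 4) : ℝ) := by
          rw [← Real.rpow_add (by linarith)]; norm_num
        rw [e]
        apply mul_le_mul_of_nonneg_right _ (by positivity)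
        exact Real.rpow_le_rpow_of_nonpos hK0 hKq (by norm_num)
      have h3 : (dk (t + 1) q : ℝ) / q ≤ C * ((K : ℝ) ^ (-(1 / 8) : ℝ) * (q : ℝ) ^ (-(3 / 4) : ℝ)) :=
        (hb q (by omega)).trans (mul_le_mul_of_nonneg_left h2 (by positivity))
      calc _ ≤ C * ((K : ℝ) ^ (-(1 / 8) : ℝ) * (q : ℝ) ^ (-(3 / 4) : ℝ)) * |ha H q| := mul_le_mul_of_nonneg_right h3 (abs_nonneg _)
        _ = _ := by ring
    refine (sum_le_sum h1).trans ?_
    rw [← mul_sum]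
    have h4 : ∑ q ∈ Ioc K z, (q : ℝ) ^ (-(3 / 4) : ℝ) * |ha H q| ≤ Z * sg H := by
      refine le_trans ?_ (hZ H hH z)
      apply sum_le_sum_of_subset_of_nonneg
      · intro q hq
        rw [mem_Ioc] at hq
        rw [mem_Icc]
        omega
      · intro q _ _
        positivity
    calc _ ≤ C * (K : ℝ) ^ (-(1 / 8) : ℝ) * (Z * sg H) := mul_le_mul_of_nonneg_left h4 (by positivity)
      _ = _ := by ring

/-- the constant in the problem -/
noncomputable def Tc (s a : ℕ) : ℝ := ∑' q : ℕ, kap s q * ha a q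

lemma kap_ha_le (t q a : ℕ) : |kap (t + 1) q * ha a q| ≤ (dk (t + 1) q : ℝ) / q * |ha a q| := by
  rcases Nat.eq_zero_or_pos q with h | h
  · subst h
    rw [ha_zero]
    simp
  · rw [abs_mul, abs_of_nonneg (kap_nonneg _ _)]
    exact mul_le_mul_of_nonneg_right (kap_le (t + 1) q h) (abs_nonneg _)

theorem Tc_summable (t H : ℕ) (hH : 1 ≤ H) : Summable (fun q : ℕ => kap (t + 1) q * ha H q) := by
  obtain ⟨Cs, hCs, h⟩ := ha_sums t
  have h1 : Summable (fun q : ℕ => (dk (t + 1) q : ℝ) / q * |ha H q|) := by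
    apply summable_of_sum_range_le (c := Cs * sg H)
    · intro n; positivity
    · intro n
      refine le_trans ?_ (h H hH n).1
      have : ∑ q ∈ range n, (dk (t + 1) q : ℝ) / q * |ha H q| ≤ ∑ q ∈ insert 0 (Icc 1 n), (dk (t + 1) q : ℝ) / q * |ha H q| := by
        apply sum_le_sum_of_subset_of_nonneg
        · intro q hq
          rw [mem_range] at hq
          rw [mem_insert, mem_Icc]
          omega
        · intro q _ _
          positivity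
      refine this.trans (le_of_eq ?_)
      rw [sum_insert (by simp), ha_zero]
      simp
  exact Summable.of_norm_bounded h1 fun q => by rw [Real.norm_eq_abs]; exact kap_ha_le t q H

/-- the tail of the series -/
theorem Tc_tail (t : ℕ) : ∃ Cs : ℝ, 0 ≤ Cs ∧ ∀ H : ℕ, 1 ≤ H → |Tc (t + 1) H| ≤ Cs * sg H ∧ ∀ K : ℕ, 1 ≤ K →
    |∑ q ∈ Icc 1 K, kap (t + 1) q * ha H q - Tc (t + 1) H| ≤ Cs * (K : ℝ) ^ (-(1 / 8) : ℝ) * sg H := by
  obtain ⟨Cs, hCs, h⟩ := ha_sums t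
  refine ⟨Cs, hCs, fun H hH => ?_⟩
  have hs := (Tc_summable t H hH).hasSum.tendsto_sum_nat
  refine ⟨?_, fun K hK => ?_⟩
  · apply le_of_tendsto (x := Filter.atTop) (f := fun n : ℕ => |∑ q ∈ range n, kap (t + 1) q * ha H q|) hs.abs
    filter_upwards with n
    refine (abs_sum_le_sum_abs _ _).trans ((sum_le_sum fun q _ => kap_ha_le t q H).trans ?_)
    refine le_trans ?_ (h H hH n).1
    have : ∑ q ∈ range n, (dk (t + 1) q : ℝ) / q * |ha H q| ≤ ∑ q ∈ insert 0 (Icc 1 n), (dk (t + 1) q : ℝ) / q * |ha H q| := by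
      apply sum_le_sum_of_subset_of_nonneg
      · intro q hq
        rw [mem_range] at hq
        rw [mem_insert, mem_Icc]
        omega
      · intro q _ _
        positivity
    refine this.trans (le_of_eq ?_)
    rw [sum_insert (by simp), ha_zero]
    simp
  have h1 : Filter.Tendsto (fun n : ℕ => |∑ q ∈ Icc 1 K, kap (t + 1) q * ha H q - ∑ q ∈ range n, kap (t + 1) q * ha H q|)
      Filter.atTop (nhds |∑ q ∈ Icc 1 K, kap (t + 1) q * ha H q - Tc (t + 1) H|) := by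
    exact (tendsto_const_nhds.sub hs).abs
  apply le_of_tendsto h1
  filter_upwards [Filter.eventually_ge_atTop (K + 1)] with n hn
  have e1 : ∑ q ∈ range n, kap (t + 1) q * ha H q = ∑ q ∈ Icc 1 K, kap (t + 1) q * ha H q +
      ∑ q ∈ Ioc K (n - 1), kap (t + 1) q * ha H q := by
    have h2 : range n = insert 0 (Icc 1 K ∪ Ioc K (n - 1)) := by
      ext q
      rw [mem_range, mem_insert, mem_union, mem_Icc, mem_Ioc]
      omega
    have h3 : Disjoint (Icc 1 K) (Ioc K (n - 1)) := by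
      rw [disjoint_left]
      intro q hq hq'
      rw [mem_Icc] at hq
      rw [mem_Ioc] at hq'
      omega
    rw [h2, sum_insert (by rw [mem_union, mem_Icc, mem_Ioc]; omega), sum_union h3, ha_zero]
    simp
  rw [e1, sub_add_cancel_left, abs_neg]
  refine (abs_sum_le_sum_abs _ _).trans ?_
  refine (sum_le_sum fun q _ => kap_ha_le t q H).trans ?_
  exact (h H hH (n - 1)).2 K hK

end Pool.Agent.V11290.TD
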