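import Pool.Agent.V11290.TD.T2

set_option autoImplicit false

/-! The main term in the divisor problem of Titchmarsh type. -/

namespace Pool.Agent.V11290.TD
open Finset
open Pool.Agent.TH212.DV
open Pool.Agent.V11290.TI

lemma ha_abs_le (a r : ℕ) : |ha a r| ≤ (r : ℝ) * r := by
  unfold ha
  refine (abs_sum_le_sum_abs _ _).trans ?_
  have h1 : ∀ d ∈ r.divisors, |(ArithmeticFunction.moebius (r / d) : ℝ) * Fv a d| ≤ r := by
    intro d hd
    have hd1 : 1 ≤ d := Nat.pos_of_mem_divisors hd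
    have hdr : (d : ℝ) ≤ r := by exact_mod_cast Nat.divisor_le hd
    have e3 : |(ArithmeticFunction.moebius (r / d) : ℝ)| ≤ 1 := by
      have := ArithmeticFunction.abs_moebius_le_one (n := r / d)
      exact_mod_cast this
    have e4 : |Fv a d| ≤ r := by
      unfold Fv
      split_ifs
      · rw [abs_of_nonneg (by positivity)]
        have h3 : (1 : ℝ) ≤ Nat.totient d := by exact_mod_cast Nat.totient_pos.2 (by omega : 0 < d)
        exact (div_le_self (Nat.cast_nonneg _) h3).trans hdr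
      · rw [abs_zero]
        positivity
    rw [abs_mul]
    calc _ ≤ 1 * (r : ℝ) := mul_le_mul e3 e4 (abs_nonneg _) zero_le_one
      _ = _ := one_mul _
  refine (sum_le_sum h1).trans ?_
  rw [sum_const, nsmul_eq_mul]
  apply mul_le_mul_of_nonneg_right _ (Nat.cast_nonneg _)
  have : r.divisors.card ≤ r := by
    calc r.divisors.card ≤ (Icc 1 r).card := by
          apply card_le_card
          intro d hd
          rw [mem_Icc]
          exact ⟨Nat.pos_of_mem_divisors hd, Nat.divisor_le hd⟩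
      _ = r := by rw [Nat.card_Icc]; omega
  exact_mod_cast this

lemma pow_sub_le (t : ℕ) (x y : ℝ) (hx : 0 ≤ x) (hxy : x ≤ y) : y ^ (t + 1) - x ^ (t + 1) ≤ (t + 1) * (y - x) * y ^ t := by
  have hy : 0 ≤ y := hx.trans hxy
  induction t with
  | zero => simp
  | succ t ih =>
    have h1 : x ^ (t + 1) ≤ y ^ (t + 1) := pow_le_pow_left₀ hx hxy _
    have h2 : x * (y ^ (t + 1) - x ^ (t + 1)) ≤ y * ((t + 1) * (y - x) * y ^ t) := by
      apply mul_le_mul hxy ih (by linarith) hy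
    calc y ^ (t + 1 + 1) - x ^ (t + 1 + 1) = (y - x) * y ^ (t + 1) + x * (y ^ (t + 1) - x ^ (t + 1)) := by ring
      _ ≤ (y - x) * y ^ (t + 1) + y * ((t + 1) * (y - x) * y ^ t) := by linarith
      _ = _ := by push_cast; ring

theorem main_asymp (t : ℕ) : ∃ C0 : ℝ, 0 ≤ C0 ∧ ∀ k : ℕ, 2 ≤ k → ∀ K : ℕ, 1 ≤ K → ∃ N₀ : ℕ, ∀ M : ℕ, N₀ ≤ M → ∀ W : ℕ → ℝ,
    (∀ r, 1 ≤ r → RR (WL t) (M / yk k M) r ≤ RR W (M / yk k M) r ∧ RR W (M / yk k M) r ≤ RR (WL t) (M / yk k M) r +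
      (t + 1) * (dk (t + 1) r / r) * ((1 + Real.log (yk k M)) * (1 + Real.log ((M / yk k M : ℕ) : ℝ)) ^ t)) →
    ∀ z : ℕ, K ≤ z → ∀ a : ℕ, 1 ≤ a →
    |∑ r ∈ Icc 1 z, RR W (M / yk k M) r * ha a r - Tc (t + 1) a * (Real.log M ^ (t + 1) / ((t + 1).factorial : ℕ))| ≤
      C0 * (1 / k + (K : ℝ) ^ (-(1 / 8) : ℝ)) * sg a * Real.log M ^ (t + 1) := by
  obtain ⟨C1, hC1, hs⟩ := ha_sums t
  obtain ⟨C2, hC2, ht⟩ := Tc_tail t
  obtain ⟨Cs, hCsd⟩ : ∃ Cs, Cs = max C1 C2 := ⟨_, rfl⟩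
  have hC1s : C1 ≤ Cs := by rw [hCsd]; exact le_max_left _ _
  have hC2s : C2 ≤ Cs := by rw [hCsd]; exact le_max_right _ _
  have hCs : 0 ≤ Cs := hC1.trans hC1s
  choose! C hC0 hC using RR_asymp t
  refine ⟨1 + 8 * (t + 2) * 2 ^ (t + 1) * Cs, by positivity, fun k hk K hK => ?_⟩
  obtain ⟨S, hS⟩ : ∃ S : ℝ, S = ∑ r ∈ Icc 1 K, C r * ((r : ℝ) * r) := ⟨_, rfl⟩
  have hS0 : 0 ≤ S := by
    rw [hS]
    apply sum_nonneg
    intro r hr
    have := hC0 r (mem_Icc.1 hr).1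
    positivity
  obtain ⟨n1, h1⟩ := ev_log (2 * k + k * (S * 2 ^ t) + 8 : ℝ)
  refine ⟨n1 + 3, fun M hM W hW z hKz a ha1 => ?_⟩
  have a1 := h1 M (by omega)
  have hM1 : 1 ≤ M := by omega
  have hM0 : (0 : ℝ) < M := by exact_mod_cast hM1
  have hk0 : (0 : ℝ) < k := by exact_mod_cast (by omega : 0 < k)
  have hk2 : (2 : ℝ) ≤ k := by exact_mod_cast hk
  have g1 := D_le k M hM1
  have g2 := D_ge k M hM1
  have g3 := yk_le k M hM1
  have g4 := yk_pos k M hM1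
  obtain ⟨y, hy⟩ : ∃ y, y = yk k M := ⟨_, rfl⟩
  rw [← hy] at hW g1 g2 g3 g4 ⊢
  obtain ⟨D, hD⟩ : ∃ D, D = M / y := ⟨_, rfl⟩
  rw [← hD] at hW g1 g2 ⊢
  obtain ⟨lam, hlam⟩ : ∃ lam, lam = Real.log (M : ℝ) := ⟨_, rfl⟩
  rw [← hlam] at a1 ⊢
  have hkS : 0 ≤ (k : ℝ) * (S * 2 ^ t) := by positivity
  have hlam8 : 8 ≤ lam := by linarith
  have hlam2k : 2 * (k : ℝ) ≤ lam := by linarith
  have hlam0 : 0 < lam := by linarith
  have hlog2 : Real.log 2 ≤ 1 := by
    have := Real.log_two_lt_d9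
    linarith
  have hpw : (1 : ℝ) ≤ (M : ℝ) ^ (1 - (1 : ℝ) / k) := by
    apply Real.one_le_rpow (by exact_mod_cast hM1)
    have : (1 : ℝ) / k ≤ 1 := by rw [div_le_one hk0]; linarith
    linarith
  have hexpand : Real.log ((M : ℝ) ^ (1 - (1 : ℝ) / k)) = lam - lam / k := by
    rw [Real.log_rpow hM0, ← hlam]
    ring
  have hlamk : lam / k ≤ lam / 2 := div_le_div_of_nonneg_left hlam0.le (by norm_num) hk2
  have hD1 : 1 ≤ D := by
    rcases Nat.eq_zero_or_pos D with h | h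
    · exfalso
      rw [h, Nat.cast_zero] at g2
      have h5 : Real.log ((M : ℝ) ^ (1 - (1 : ℝ) / k)) ≤ Real.log 2 := Real.log_le_log (by linarith) (by linarith)
      rw [hexpand] at h5
      linarith
    · exact h
  have hD0 : (0 : ℝ) < D := by exact_mod_cast hD1
  have hD1r : (1 : ℝ) ≤ D := by exact_mod_cast hD1
  obtain ⟨ell, hell⟩ : ∃ ell, ell = Real.log (D : ℝ) := ⟨_, rfl⟩
  rw [← hell] at hW
  have hell0 : 0 ≤ ell := by rw [hell]; exact Real.log_natCast_nonneg D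
  have hell1 : ell ≤ lam - lam / k := by
    rw [hell, ← hexpand]
    exact Real.log_le_log hD0 g1
  have hell2 : lam - lam / k - 2 ≤ ell := by
    have h5 : Real.log ((M : ℝ) ^ (1 - (1 : ℝ) / k)) ≤ Real.log (4 * D) := Real.log_le_log (by linarith) (by linarith)
    rw [hexpand, Real.log_mul (by norm_num) hD0.ne', ← hell, show (4 : ℝ) = 2 * 2 by norm_num,
      Real.log_mul (by norm_num) (by norm_num)] at h5
    linarith
  have hlamk0 : 0 < lam / k := by positivity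
  have hlk2 : 2 ≤ lam / k := by rw [le_div_iff₀ hk0]; exact hlam2k
  have hell3 : ell ≤ lam := by linarith
  have hell4 : lam - ell ≤ 2 * (lam / k) := by linarith
  have hy1 : (1 : ℝ) ≤ y := by exact_mod_cast g4
  have hlogy0 : 0 ≤ Real.log y := Real.log_natCast_nonneg y
  have hlogy : 1 + Real.log y ≤ 2 * (lam / k) := by
    have h5 : Real.log y ≤ Real.log (2 * (M : ℝ) ^ ((1 : ℝ) / k)) := Real.log_le_log (by linarith) g3
    rw [Real.log_mul (by norm_num) (by positivity), Real.log_rpow hM0, ← hlam] at h5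
    have h6 : 1 / (k : ℝ) * lam = lam / k := by ring
    rw [h6] at h5
    linarith
  have h1ell : 1 + ell ≤ 2 * lam := by linarith
  have h1ell0 : 0 ≤ 1 + ell := by linarith
  have hsg1 : 1 ≤ sg a := one_le_sg a ha1
  have hsg0 : 0 ≤ sg a := by linarith
  obtain ⟨P, hP⟩ : ∃ P : ℝ, P = lam ^ (t + 1) := ⟨_, rfl⟩
  have hP0 : 0 < P := by rw [hP]; positivity
  have hQ : (1 + ell) ^ t ≤ 2 ^ t * lam ^ t := by
    rw [← mul_pow]
    exact pow_le_pow_left₀ h1ell0 h1ell _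
  have hQ1 : (1 + ell) ^ (t + 1) ≤ 2 ^ (t + 1) * P := by
    rw [hP, ← mul_pow]
    exact pow_le_pow_left₀ h1ell0 h1ell _
  have hgapf : (1 + Real.log y) * (1 + ell) ^ t ≤ 2 ^ (t + 1) * (P / k) := by
    calc (1 + Real.log y) * (1 + ell) ^ t ≤ (2 * (lam / k)) * (2 ^ t * lam ^ t) :=
          mul_le_mul hlogy hQ (by positivity) (by positivity)
      _ = _ := by rw [hP, pow_succ, pow_succ]; ring
  have hPk : P / k ≤ P := div_le_self hP0.le (by linarith)
  have hfac : (1 : ℝ) ≤ ((t + 1).factorial : ℕ) := by exact_mod_cast Nat.one_le_iff_ne_zero.2 (Nat.factorial_ne_zero _)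
  have hfac0 : (0 : ℝ) < ((t + 1).factorial : ℕ) := by linarith
  obtain ⟨κ, hκ⟩ : ∃ κ : ℝ, κ = (K : ℝ) ^ (-(1 / 8) : ℝ) := ⟨_, rfl⟩
  have hκ0 : 0 ≤ κ := by rw [hκ]; positivity
  obtain ⟨w, hw⟩ : ∃ w : ℕ → ℝ, w = fun r => (dk (t + 1) r : ℝ) / r := ⟨_, rfl⟩
  have hw0 : ∀ r, 0 ≤ w r := by intro r; rw [hw]; positivity
  -- bounds for the coefficients
  have hgap : ∀ r, 1 ≤ r → |RR W D r - RR (WL t) D r| ≤ w r * ((t + 1) * (2 ^ (t + 1) * (P / k))) := by
    intro r hr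
    obtain ⟨b1, b2⟩ := hW r hr
    rw [abs_of_nonneg (by linarith)]
    have h5 : (t + 1) * ((dk (t + 1) r : ℝ) / r) * ((1 + Real.log y) * (1 + ell) ^ t) ≤ w r * ((t + 1) * (2 ^ (t + 1) * (P / k))) := by
      calc (t + 1) * ((dk (t + 1) r : ℝ) / r) * ((1 + Real.log y) * (1 + ell) ^ t) = w r * ((t + 1) * ((1 + Real.log y) * (1 + ell) ^ t)) := by
            rw [hw]; ring
        _ ≤ _ := by
            apply mul_le_mul_of_nonneg_left _ (hw0 r)
            exact mul_le_mul_of_nonneg_left hgapf (by positivity)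
    linarith
  have hRL : ∀ r, 1 ≤ r → 0 ≤ RR (WL t) D r ∧ RR (WL t) D r ≤ w r * ((t + 2) * (2 ^ (t + 1) * P)) := by
    intro r hr
    refine ⟨RR_nonneg _ _ _ (WL_nonneg t), ?_⟩
    have h5 := RR_le (WL t) (t + 2) t D r (fun d => WL_le t d) (by positivity) hr
    rw [← hell] at h5
    refine h5.trans ?_
    calc ((t : ℝ) + 2) * ((dk (t + 1) r : ℝ) / r) * (1 + ell) ^ (t + 1) = w r * ((t + 2) * (1 + ell) ^ (t + 1)) := by rw [hw]; ring
      _ ≤ _ := by
          apply mul_le_mul_of_nonneg_left _ (hw0 r)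
          exact mul_le_mul_of_nonneg_left hQ1 (by positivity)
  have hRW : ∀ r, 1 ≤ r → |RR W D r| ≤ w r * (2 * (t + 2) * (2 ^ (t + 1) * P)) := by
    intro r hr
    have b1 := hgap r hr
    obtain ⟨b2, b3⟩ := hRL r hr
    have b4 : |RR W D r| ≤ |RR W D r - RR (WL t) D r| + |RR (WL t) D r| := by
      have := abs_add_le (RR W D r - RR (WL t) D r) (RR (WL t) D r)
      rwa [sub_add_cancel] at this
    rw [abs_of_nonneg b2] at b4
    have b5 : w r * ((t + 1) * (2 ^ (t + 1) * (P / k))) ≤ w r * ((t + 2) * (2 ^ (t + 1) * P)) := by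
      apply mul_le_mul_of_nonneg_left _ (hw0 r)
      apply mul_le_mul (by linarith) _ (by positivity) (by positivity)
      exact mul_le_mul_of_nonneg_left hPk (by positivity)
    calc |RR W D r| ≤ w r * ((t + 2) * (2 ^ (t + 1) * P)) + w r * ((t + 2) * (2 ^ (t + 1) * P)) := by linarith
      _ = _ := by ring
  -- the sums
  obtain ⟨s1, _⟩ := hs a ha1 K
  obtain ⟨_, s2⟩ := hs a ha1 z
  have s3 := s2 K hK
  obtain ⟨t1, t2⟩ := ht a ha1
  have t3 := t2 K hK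
  rw [← hκ] at s3 t3 ⊢
  have s1' : ∑ q ∈ Icc 1 K, w q * |ha a q| ≤ Cs * sg a := by
    rw [hw]
    exact s1.trans (mul_le_mul_of_nonneg_right hC1s hsg0)
  have s3' : ∑ q ∈ Ioc K z, w q * |ha a q| ≤ Cs * κ * sg a := by
    rw [hw]
    exact s3.trans (mul_le_mul_of_nonneg_right (mul_le_mul_of_nonneg_right hC1s hκ0) hsg0)
  have t1' : |Tc (t + 1) a| ≤ Cs * sg a := t1.trans (mul_le_mul_of_nonneg_right hC2s hsg0)
  have t3' : |∑ q ∈ Icc 1 K, kap (t + 1) q * ha a q - Tc (t + 1) a| ≤ Cs * κ * sg a :=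
    t3.trans (mul_le_mul_of_nonneg_right (mul_le_mul_of_nonneg_right hC2s hκ0) hsg0)
  obtain ⟨f, hf⟩ : ∃ f : ℝ, f = ((t + 1).factorial : ℕ) := ⟨_, rfl⟩
  rw [← hf] at hfac hfac0 ⊢
  have hsplit : Icc 1 z = Icc 1 K ∪ Ioc K z := by
    ext q
    rw [mem_union, mem_Icc, mem_Icc, mem_Ioc]
    omega
  have hdisj : Disjoint (Icc 1 K) (Ioc K z) := by
    rw [disjoint_left]
    intro q hq hq'
    rw [mem_Icc] at hq
    rw [mem_Ioc] at hq'
    omega
  have e0 : ∑ r ∈ Icc 1 z, RR W D r * ha a r - Tc (t + 1) a * (lam ^ (t + 1) / f) =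
      (∑ r ∈ Icc 1 K, (RR W D r - RR (WL t) D r) * ha a r) +
      (∑ r ∈ Icc 1 K, (RR (WL t) D r - kap (t + 1) r * (ell ^ (t + 1) / f)) * ha a r) +
      (ell ^ (t + 1) / f) * (∑ r ∈ Icc 1 K, kap (t + 1) r * ha a r - Tc (t + 1) a) -
      Tc (t + 1) a * ((lam ^ (t + 1) - ell ^ (t + 1)) / f) + ∑ r ∈ Ioc K z, RR W D r * ha a r := by
    rw [hsplit, sum_union hdisj]
    simp only [sub_mul, sum_sub_distrib]
    have e1 : ∑ r ∈ Icc 1 K, kap (t + 1) r * (ell ^ (t + 1) / f) * ha a r = (ell ^ (t + 1) / f) * ∑ r ∈ Icc 1 K, kap (t + 1) r * ha a r := by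
      rw [mul_sum]
      apply sum_congr rfl
      intro r _
      ring
    rw [e1]
    ring
  rw [e0, ← hP]
  have hellP : ell ^ (t + 1) ≤ P := by rw [hP]; exact pow_le_pow_left₀ hell0 hell3 _
  have hell10 : 0 ≤ ell ^ (t + 1) := by positivity
  -- the five terms
  have f1 : |∑ r ∈ Icc 1 K, (RR W D r - RR (WL t) D r) * ha a r| ≤ (t + 1) * (2 ^ (t + 1) * (P / k)) * (Cs * sg a) := by
    refine (abs_sum_le_sum_abs _ _).trans ?_
    have h5 : ∀ r ∈ Icc 1 K, |(RR W D r - RR (WL t) D r) * ha a r| ≤ (t + 1) * (2 ^ (t + 1) * (P / k)) * (w r * |ha a r|) := by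
      intro r hr
      rw [mem_Icc] at hr
      rw [abs_mul]
      refine (mul_le_mul_of_nonneg_right (hgap r hr.1) (abs_nonneg _)).trans (le_of_eq (by ring))
    refine (sum_le_sum h5).trans ?_
    rw [← mul_sum]
    exact mul_le_mul_of_nonneg_left s1' (by positivity)
  have f2 : |∑ r ∈ Icc 1 K, (RR (WL t) D r - kap (t + 1) r * (ell ^ (t + 1) / f)) * ha a r| ≤ P / k := by
    refine (abs_sum_le_sum_abs _ _).trans ?_
    have h5 : ∀ r ∈ Icc 1 K, |(RR (WL t) D r - kap (t + 1) r * (ell ^ (t + 1) / f)) * ha a r| ≤ (2 ^ t * lam ^ t) * (C r * ((r : ℝ) * r)) := by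
      intro r hr
      rw [mem_Icc] at hr
      have h6 := hC r hr.1 (D : ℝ) hD1r
      rw [Nat.floor_natCast, ← hell, ← hf] at h6
      have h7 : WL t = fun d => (dk (t + 1) d : ℝ) := rfl
      rw [← h7] at h6
      have h8 := hC0 r hr.1
      rw [abs_mul]
      calc _ ≤ (C r * (1 + ell) ^ t) * ((r : ℝ) * r) := mul_le_mul h6 (ha_abs_le a r) (abs_nonneg _) (by positivity)
        _ ≤ (C r * (2 ^ t * lam ^ t)) * ((r : ℝ) * r) := by
            apply mul_le_mul_of_nonneg_right _ (by positivity)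
            exact mul_le_mul_of_nonneg_left hQ h8
        _ = _ := by ring
    refine (sum_le_sum h5).trans ?_
    rw [← mul_sum, ← hS, hP, le_div_iff₀ hk0, pow_succ]
    calc 2 ^ t * lam ^ t * S * k = lam ^ t * (k * (S * 2 ^ t)) := by ring
      _ ≤ lam ^ t * lam := mul_le_mul_of_nonneg_left (by linarith) (by positivity)
  have f3 : |(ell ^ (t + 1) / f) * (∑ r ∈ Icc 1 K, kap (t + 1) r * ha a r - Tc (t + 1) a)| ≤ P * (Cs * κ * sg a) := by
    rw [abs_mul, abs_of_nonneg (div_nonneg hell10 hfac0.le)]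
    exact mul_le_mul ((div_le_self hell10 hfac).trans hellP) t3' (abs_nonneg _) hP0.le
  have f4 : |Tc (t + 1) a * ((lam ^ (t + 1) - ell ^ (t + 1)) / f)| ≤ (Cs * sg a) * (2 * (t + 1) * (P / k)) := by
    rw [abs_mul]
    apply mul_le_mul t1' _ (abs_nonneg _) (by positivity)
    have h5 : 0 ≤ lam ^ (t + 1) - ell ^ (t + 1) := by rw [← hP]; linarith
    rw [abs_of_nonneg (div_nonneg h5 hfac0.le)]
    refine (div_le_self h5 hfac).trans ((pow_sub_le t ell lam hell0 hell3).trans ?_)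
    calc ((t : ℝ) + 1) * (lam - ell) * lam ^ t ≤ (t + 1) * (2 * (lam / k)) * lam ^ t := by gcongr
      _ = _ := by rw [hP, pow_succ]; ring
  have f5 : |∑ r ∈ Ioc K z, RR W D r * ha a r| ≤ (2 * (t + 2) * (2 ^ (t + 1) * P)) * (Cs * κ * sg a) := by
    refine (abs_sum_le_sum_abs _ _).trans ?_
    have h5 : ∀ r ∈ Ioc K z, |RR W D r * ha a r| ≤ (2 * (t + 2) * (2 ^ (t + 1) * P)) * (w r * |ha a r|) := by
      intro r hr
      rw [mem_Ioc] at hr
      rw [abs_mul]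
      refine (mul_le_mul_of_nonneg_right (hRW r (by omega)) (abs_nonneg _)).trans (le_of_eq (by ring))
    refine (sum_le_sum h5).trans ?_
    rw [← mul_sum]
    exact mul_le_mul_of_nonneg_left s3' (by positivity)
  have habs : ∀ A B C D E : ℝ, |A + B + C - D + E| ≤ |A| + |B| + |C| + |D| + |E| := by
    intro A B C D E
    have h1 := abs_add_le (A + B + C - D) E
    have h2 := abs_sub (A + B + C) D
    have h3 := abs_add_le (A + B) C
    have h4 := abs_add_le A B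
    linarith
  rw [← hP] at f4
  refine (habs _ _ _ _ _).trans ((add_le_add (add_le_add (add_le_add (add_le_add f1 f2) f3) f4) f5).trans ?_)
  have hfin1 : P / k ≤ P / k * sg a := le_mul_of_one_le_right (by positivity) hsg1
  have ht0 : (0 : ℝ) ≤ t := Nat.cast_nonneg _
  have h2t : (1 : ℝ) ≤ 2 ^ (t + 1) := one_le_pow₀ (by norm_num)
  obtain ⟨u, hu⟩ : ∃ u : ℝ, u = 2 ^ (t + 1) := ⟨_, rfl⟩
  rw [← hu] at h2t ⊢
  obtain ⟨X, hX⟩ : ∃ X : ℝ, X = P / k * sg a := ⟨_, rfl⟩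
  obtain ⟨Y, hY⟩ : ∃ Y : ℝ, Y = P * κ * sg a := ⟨_, rfl⟩
  have hX0 : 0 ≤ X := by rw [hX]; positivity
  have hY0 : 0 ≤ Y := by rw [hY]; positivity
  have r1 : (t + 1) * (u * (P / k)) * (Cs * sg a) = (t + 1) * u * Cs * X := by rw [hX]; ring
  have r3 : P * (Cs * κ * sg a) = Cs * Y := by rw [hY]; ring
  have r4 : (Cs * sg a) * (2 * (t + 1) * (P / k)) = 2 * (t + 1) * Cs * X := by rw [hX]; ring
  have r5 : (2 * (t + 2) * (u * P)) * (Cs * κ * sg a) = 2 * (t + 2) * u * Cs * Y := by rw [hY]; ring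
  have r6 : (1 + 8 * (t + 2) * u * Cs) * (1 / k + κ) * sg a * P = (1 + 8 * (t + 2) * u * Cs) * (X + Y) := by rw [hX, hY]; ring
  rw [r1, r3, r4, r5, r6]
  have hCX : 0 ≤ Cs * X := by positivity
  have hCY : 0 ≤ Cs * Y := by positivity
  have hg3 : 0 ≤ u * (Cs * X) := by positivity
  have hg4 : 0 ≤ u * (Cs * Y) := by positivity
  have hg5 : 0 ≤ t * (u * (Cs * X)) := by positivity
  have hg6 : 0 ≤ t * (u * (Cs * Y)) := by positivity
  have hg2 : Cs * Y ≤ u * (Cs * Y) := le_mul_of_one_le_left hCY h2t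
  have hg7 : Cs * X ≤ u * (Cs * X) := le_mul_of_one_le_left hCX h2t
  have hg8 : t * (Cs * X) ≤ t * (u * (Cs * X)) := mul_le_mul_of_nonneg_left hg7 ht0
  have k1 : (t + 1) * u * Cs * X = t * (u * (Cs * X)) + u * (Cs * X) := by ring
  have k2 : 2 * (t + 1) * Cs * X = 2 * (t * (Cs * X)) + 2 * (Cs * X) := by ring
  have k3 : 2 * (t + 2) * u * Cs * Y = 2 * (t * (u * (Cs * Y))) + 4 * (u * (Cs * Y)) := by ring
  have k4 : (1 + 8 * (t + 2) * u * Cs) * (X + Y) = X + Y + 8 * (t * (u * (Cs * X))) + 16 * (u * (Cs * X)) + 8 * (t * (u * (Cs * Y))) + 16 * (u * (Cs * Y)) := by ring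
  rw [k1, k2, k3, k4]
  linarith

end Pool.Agent.V11290.TD
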