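import Pool.Agent.V11290.TD.T2

set_option autoImplicit false

/-! The divisor sum between two sums over progressions. -/

namespace Pool.Agent.V11290.TD
open Finset
open Pool.Agent.TH212.DV
open Pool.Agent.V11290.TI

lemma abs_cz_le (q : ℕ) (n : ℤ) (hq : 1 ≤ q) : |(cz q n : ℝ)| ≤ q := by
  have h := norm_cr q n
  rw [cr_eq q n hq] at h
  have e : ‖((cz q n : ℤ) : ℂ)‖ = |(cz q n : ℝ)| := by
    rw [Complex.norm_intCast]
  rw [e] at h
  exact h

/-- the sum of `g n F(|n - a|)` -/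
noncomputable def SF (W : ℕ → ℝ) (D X : ℕ) (g : ℕ → ℝ) (a : ℤ) : ℝ :=
  ∑ n ∈ Icc 1 X, g n * (if (n : ℤ) = a then 0 else FF W D ((n : ℤ) - a).natAbs)

/-- the sum of `g n d_s(|n - a|)` -/
noncomputable def St (s X : ℕ) (g : ℕ → ℝ) (a : ℤ) : ℝ :=
  ∑ n ∈ Icc 1 X, g n * (if (n : ℤ) = a then 0 else (dk s ((n : ℤ) - a).natAbs : ℝ))

lemma SF_eval (W g : ℕ → ℝ) (G δ γ ρ : ℝ) (D z X : ℕ) (a : ℤ) (hR : ∀ r, 1 ≤ r → r ≤ z → |RR W D r| ≤ ρ) (hρ : 0 ≤ ρ)
    (hγ : 0 ≤ γ) (hg : ∀ n ∈ Icc 1 X, |g n| ≤ γ) (h : SW g G X z δ) (hδ : 0 ≤ δ) :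
    |SF W D X g a - dif W D z X g a - G * ∑ r ∈ Icc 1 z, RR W D r * ha a.natAbs r| ≤ z * (ρ * (z * z * δ)) + γ * (z * (ρ * z)) := by
  classical
  have e1 : SF W D X g a - dif W D z X g a = ∑ n ∈ Icc 1 X, g n * MM W D z ((n : ℤ) - a) - ∑ n ∈ Icc 1 X, g n * (if (n : ℤ) = a then MM W D z 0 else 0) := by
    unfold SF dif
    rw [← sum_sub_distrib, ← sum_sub_distrib]
    apply sum_congr rfl
    intro n _
    split_ifs with h
    · rw [h, sub_self]
      ring
    · unfold ff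
      rw [MM_natAbs]
      ring
  rw [e1, model_sum]
  have e2 : ∑ r ∈ Icc 1 z, RR W D r * ∑ d ∈ r.divisors, (ArithmeticFunction.moebius (r / d) : ℝ) * d * Sq g X d a -
      ∑ n ∈ Icc 1 X, g n * (if (n : ℤ) = a then MM W D z 0 else 0) - G * ∑ r ∈ Icc 1 z, RR W D r * ha a.natAbs r =
      ∑ r ∈ Icc 1 z, RR W D r * (∑ d ∈ r.divisors, (ArithmeticFunction.moebius (r / d) : ℝ) * d * Sq g X d a - G * ha a.natAbs r) -
      ∑ n ∈ Icc 1 X, g n * (if (n : ℤ) = a then MM W D z 0 else 0) := by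
    simp only [mul_sub, sum_sub_distrib]
    have e3 : ∑ r ∈ Icc 1 z, RR W D r * (G * ha a.natAbs r) = G * ∑ r ∈ Icc 1 z, RR W D r * ha a.natAbs r := by
      rw [mul_sum]
      apply sum_congr rfl
      intro r _
      ring
    rw [e3]
    ring
  rw [e2]
  refine (abs_sub _ _).trans (add_le_add ?_ ?_)
  · refine (abs_sum_le_sum_abs _ _).trans ?_
    have h1 : ∀ r ∈ Icc 1 z, |RR W D r * (∑ d ∈ r.divisors, (ArithmeticFunction.moebius (r / d) : ℝ) * d * Sq g X d a - G * ha a.natAbs r)| ≤ ρ * (z * z * δ) := by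
      intro r hr
      rw [mem_Icc] at hr
      rw [abs_mul]
      apply mul_le_mul (hR r hr.1 hr.2) _ (abs_nonneg _) hρ
      refine (local_err g G δ X z r a hr.1 hr.2 h).trans ?_
      have hrz : (r : ℝ) ≤ z := by exact_mod_cast hr.2
      apply mul_le_mul_of_nonneg_right _ hδ
      exact mul_le_mul hrz hrz (Nat.cast_nonneg _) (Nat.cast_nonneg _)
    refine (sum_le_sum h1).trans (le_of_eq ?_)
    rw [sum_const, Nat.card_Icc, nsmul_eq_mul]
    simp only [Nat.add_sub_cancel]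
  · have hM : |MM W D z 0| ≤ z * (ρ * z) := by
      unfold MM
      refine (abs_sum_le_sum_abs _ _).trans ?_
      have h1 : ∀ q ∈ Icc 1 z, |RR W D q * (cz q 0 : ℝ)| ≤ ρ * z := by
        intro q hq
        rw [mem_Icc] at hq
        rw [abs_mul]
        refine mul_le_mul (hR q hq.1 hq.2) ?_ (abs_nonneg _) hρ
        exact (abs_cz_le q 0 hq.1).trans (by exact_mod_cast hq.2)
      refine (sum_le_sum h1).trans (le_of_eq ?_)
      rw [sum_const, Nat.card_Icc, nsmul_eq_mul]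
      simp only [Nat.add_sub_cancel]
    by_cases hex : ∃ n ∈ Icc 1 X, (n : ℤ) = a
    · obtain ⟨n, hn, hna⟩ := hex
      rw [sum_eq_single n]
      · rw [if_pos hna, abs_mul]
        exact mul_le_mul (hg n hn) hM (abs_nonneg _) hγ
      · intro m _ hmn
        rw [if_neg, mul_zero]
        intro hma
        apply hmn
        have : (m : ℤ) = n := hma.trans hna.symm
        exact_mod_cast this
      · intro hcon
        exact absurd hn hcon
    · rw [sum_eq_zero, abs_zero]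
      · positivity
      · intro n hn
        rw [if_neg, mul_zero]
        intro hcon
        exact hex ⟨n, hn, hcon⟩

lemma St_lower (t D X : ℕ) (g : ℕ → ℝ) (a : ℤ) (hg : ∀ n ∈ Icc 1 X, 0 ≤ g n) : SF (WL t) D X g a ≤ St (t + 2) X g a := by
  unfold SF St
  apply sum_le_sum
  intro n hn
  apply mul_le_mul_of_nonneg_left _ (hg n hn)
  split_ifs with h
  · exact le_rfl
  · exact FF_lower t D _ (Int.natAbs_pos.2 (sub_ne_zero.2 h))

lemma FF_nonneg (W : ℕ → ℝ) (hW : ∀ d, 0 ≤ W d) (D n : ℕ) : 0 ≤ FF W D n := by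
  unfold FF
  exact sum_nonneg fun d _ => hW d

lemma card_near (X Y : ℕ) (a : ℤ) : (((Icc 1 X).filter (fun n : ℕ => ((n : ℤ) - a).natAbs < Y)).card : ℝ) ≤ 2 * Y := by
  have h : ((Icc 1 X).filter (fun n : ℕ => ((n : ℤ) - a).natAbs < Y)).card ≤ (Ico (a - Y) (a + Y)).card := by
    apply card_le_card_of_injOn (fun n : ℕ => (n : ℤ))
    · intro n hn
      simp only [coe_filter, mem_Icc, Set.mem_ofPred_eq, coe_Ico, Set.mem_Ico] at hn ⊢
      omega
    · intro n _ n' _ hnn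
      simp only at hnn
      exact_mod_cast hnn
  rw [Int.card_Ico] at h
  have h2 : (a + Y - (a - Y)).toNat = 2 * Y := by omega
  rw [h2] at h
  exact_mod_cast h

lemma St_upper (t M y X : ℕ) (g : ℕ → ℝ) (γ : ℝ) (a : ℤ) (hy : 1 ≤ y) (hM : ∀ n ∈ Icc 1 X, ((n : ℤ) - a).natAbs ≤ M)
    (hg : ∀ n ∈ Icc 1 X, 0 ≤ g n) (hγ : 0 ≤ γ) (hg' : ∀ n ∈ Icc 1 X, g n ≤ γ) :
    St (t + 2) X g a ≤ SF (WU y t) (M / y) X g a + γ * ((y ^ (t + 2) : ℕ) : ℝ) ^ (t + 2) * (2 * ((y ^ (t + 2) : ℕ) : ℝ)) := by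
  classical
  obtain ⟨Y, hY⟩ : ∃ Y, Y = y ^ (t + 2) := ⟨_, rfl⟩
  rw [← hY]
  have h1 : ∀ n ∈ Icc 1 X, g n * (if (n : ℤ) = a then 0 else (dk (t + 2) ((n : ℤ) - a).natAbs : ℝ)) ≤
      g n * (if (n : ℤ) = a then 0 else FF (WU y t) (M / y) ((n : ℤ) - a).natAbs) +
      (if ((n : ℤ) - a).natAbs < Y then γ * (Y : ℝ) ^ (t + 2) else 0) := by
    intro n hn
    have hb0 : (0 : ℝ) ≤ (if ((n : ℤ) - a).natAbs < Y then γ * (Y : ℝ) ^ (t + 2) else 0) := by
      split_ifs <;> positivity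
    by_cases ha : (n : ℤ) = a
    · rw [if_pos ha, if_pos ha]
      linarith
    · rw [if_neg ha, if_neg ha]
      have hm1 : 1 ≤ ((n : ℤ) - a).natAbs := Int.natAbs_pos.2 (sub_ne_zero.2 ha)
      by_cases hlt : ((n : ℤ) - a).natAbs < Y
      · rw [if_pos hlt]
        have h2 : (dk (t + 2) ((n : ℤ) - a).natAbs : ℝ) ≤ (Y : ℝ) ^ (t + 2) := by
          have h3 := dk_le_tau (t + 2) ((n : ℤ) - a).natAbs
          have h4 : ((n : ℤ) - a).natAbs.divisors.card ≤ ((n : ℤ) - a).natAbs := by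
            calc ((n : ℤ) - a).natAbs.divisors.card ≤ (Icc 1 ((n : ℤ) - a).natAbs).card := by
                  apply card_le_card
                  intro d hd
                  rw [mem_Icc]
                  exact ⟨Nat.pos_of_mem_divisors hd, Nat.divisor_le hd⟩
              _ = _ := by rw [Nat.card_Icc]; omega
          have h5 : dk (t + 2) ((n : ℤ) - a).natAbs ≤ Y ^ (t + 2) := h3.trans (Nat.pow_le_pow_left (by omega) _)
          exact_mod_cast h5
        have h6 : g n * (dk (t + 2) ((n : ℤ) - a).natAbs : ℝ) ≤ γ * (Y : ℝ) ^ (t + 2) :=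
          mul_le_mul (hg' n hn) h2 (Nat.cast_nonneg _) hγ
        have h7 : 0 ≤ g n * FF (WU y t) (M / y) ((n : ℤ) - a).natAbs := mul_nonneg (hg n hn) (FF_nonneg _ (WU_nonneg y t) _ _)
        linarith
      · rw [if_neg hlt, add_zero]
        apply mul_le_mul_of_nonneg_left _ (hg n hn)
        push Not at hlt
        exact FF_upper t M y _ hy (hY ▸ hlt) (hM n hn)
  unfold St SF
  refine (sum_le_sum h1).trans ?_
  rw [sum_add_distrib]
  apply add_le_add le_rfl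
  rw [← sum_filter, sum_const, nsmul_eq_mul, mul_comm]
  exact mul_le_mul_of_nonneg_left (card_near X Y a) (by positivity)

end Pool.Agent.V11290.TD
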