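import Pool.Agent.V11290.TD.T3
import Pool.Agent.V11290.TD.T4

set_option autoImplicit false

/-! The divisor sum of Titchmarsh type: the deterministic estimate. -/

namespace Pool.Agent.V11290.TD
open Finset
open Pool.Agent.TH212.DV
open Pool.Agent.V11290.TI

/-- the conditions on the two weights -/
def Between (t k M : ℕ) (W : ℕ → ℝ) : Prop := (∀ d, 0 ≤ W d) ∧ (∀ d, W d ≤ (t + 2) * dk (t + 1) d) ∧
  ∀ r, 1 ≤ r → RR (WL t) (M / yk k M) r ≤ RR W (M / yk k M) r ∧ RR W (M / yk k M) r ≤ RR (WL t) (M / yk k M) r +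
      (t + 1) * (dk (t + 1) r / r) * ((1 + Real.log (yk k M)) * (1 + Real.log ((M / yk k M : ℕ) : ℝ)) ^ t)

lemma between_WL (t k M : ℕ) : Between t k M (WL t) := by
  refine ⟨WL_nonneg t, WL_le t, fun r _ => ⟨le_rfl, ?_⟩⟩
  have h1 : 0 ≤ Real.log (yk k M) := Real.log_natCast_nonneg _
  have h2 : 0 ≤ Real.log ((M / yk k M : ℕ) : ℝ) := Real.log_natCast_nonneg _
  have : (0 : ℝ) ≤ (t + 1) * (dk (t + 1) r / r) * ((1 + Real.log (yk k M)) * (1 + Real.log ((M / yk k M : ℕ) : ℝ)) ^ t) := by positivity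
  linarith

lemma between_WU (t k M : ℕ) (hM : 1 ≤ M) : Between t k M (WU (yk k M) t) := by
  refine ⟨WU_nonneg _ t, WU_le _ t, fun r hr => ⟨?_, RR_diff (yk k M) t _ r (yk_pos k M hM) hr⟩⟩
  unfold RR
  apply sum_le_sum
  intro d _
  apply div_le_div_of_nonneg_right _ (Nat.cast_nonneg _)
  unfold WL WU
  have : (0 : ℝ) ≤ (t + 1) * uu (yk k M) t d := by positivity
  linarith

lemma exists_K (c ε : ℝ) (_hc : 0 ≤ c) (hε : 0 < ε) : ∃ K : ℕ, 1 ≤ K ∧ c * (K : ℝ) ^ (-(1 / 8) : ℝ) ≤ ε := by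
  have h : Filter.Tendsto (fun n : ℕ => c * (n : ℝ) ^ (-(1 / 8) : ℝ)) Filter.atTop (nhds (c * 0)) :=
    ((tendsto_rpow_neg_atTop (by norm_num : (0 : ℝ) < 1 / 8)).comp tendsto_natCast_atTop_atTop).const_mul c
  rw [mul_zero] at h
  have h2 := (h.eventually (gt_mem_nhds hε)).and (Filter.eventually_ge_atTop 1)
  obtain ⟨K, hK1, hK2⟩ := h2.exists
  exact ⟨K, hK2, hK1.le⟩

/-- the sum against a weight between the two bounds -/
theorem weight_asymp (B t T : ℕ) (ε : ℝ) (hε : 0 < ε) : ∃ k₀ : ℕ, 2 ≤ k₀ ∧ ∀ k : ℕ, k₀ ≤ k → ∀ B0 : ℕ, ∃ V N₀ : ℕ, ∀ N : ℕ, N₀ ≤ N →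
    ∀ W : ℕ → ℝ, Between t k (big B N) W → ∀ X : ℕ, X ≤ B * N → ∀ g : ℕ → ℝ,
    (∀ n ∈ Icc 1 X, 0 ≤ g n ∧ g n ≤ Real.log N ^ T) → ∑ n ∈ Icc 1 X, g n ≤ B * N → ∀ a : ℤ, a ≠ 0 →
    SW g (∑ n ∈ Icc 1 X, g n) X ⌈Real.log N ^ (B0 + 1)⌉₊ (N / Real.log N ^ V) →
    |dif W (big B N / yk k (big B N)) ⌈Real.log N ^ (B0 + 1)⌉₊ X g a| ≤ ε / 8 * N →
    |SF W (big B N / yk k (big B N)) X g a - Tc (t + 1) a.natAbs * ((∑ n ∈ Icc 1 X, g n) * (Real.log N ^ (t + 1) / ((t + 1).factorial : ℕ)))| ≤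
      ε / 2 * (sg a.natAbs * N * Real.log N ^ (t + 1)) := by
  obtain ⟨C0, hC0, hmain⟩ := main_asymp t
  obtain ⟨Cs, hCs, hTc⟩ := Tc_tail t
  obtain ⟨k₀, hk₀⟩ := exists_nat_ge (B * C0 * 2 ^ (t + 1) * (16 / ε))
  obtain ⟨K, hK1, hK⟩ := exists_K (B * C0 * 2 ^ (t + 1)) (ε / 16) (by positivity) (by positivity)
  refine ⟨k₀ + 2, by omega, fun k hk B0 => ?_⟩
  obtain ⟨V, hV⟩ : ∃ V, V = (B0 + 2) * (t + 4) + (t + 1) + 1 := ⟨_, rfl⟩
  obtain ⟨n1, h1⟩ := hmain k (by omega) K hK1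
  obtain ⟨lB, hlB⟩ : ∃ lB : ℝ, lB = Real.log (2 * (B + 1) : ℕ) := ⟨_, rfl⟩
  have hlB0 : 0 ≤ lB := by rw [hlB]; exact Real.log_natCast_nonneg _
  obtain ⟨n2, h2⟩ := ev_log ((t + 2) * 4 ^ (t + 1) + K + 16 / ε + lB + 8 / ε * (B * Cs * (t + 1) * lB * 2 ^ t) + 2 : ℝ)
  obtain ⟨n3, h3⟩ := ev_pow (T + 1 + (t + 1) + (B0 + 2) * (t + 3)) 1 1 one_pos
  refine ⟨V, n1 + n2 + n3 + 3, fun N hN W hW X hX g hg hG a ha0 hSW hdif => ?_⟩
  obtain ⟨hW0, hWle, hWb⟩ := hW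
  have a2 := h2 N (by omega)
  have a3 := h3 N (by omega)
  rw [one_mul, Real.rpow_one] at a3
  have hN1 : 1 ≤ N := by omega
  have hN0 : (0 : ℝ) < N := by exact_mod_cast hN1
  have hk0 : (0 : ℝ) < k := by exact_mod_cast (by omega : 0 < k)
  obtain ⟨M, hM⟩ : ∃ M, M = big B N := ⟨_, rfl⟩
  rw [← hM] at hWb hdif ⊢
  have hMN : M = 2 * (B + 1) * N := hM
  have hNM : N ≤ M := by rw [hMN]; exact Nat.le_mul_of_pos_left _ (by omega)
  obtain ⟨L, hL⟩ : ∃ L, L = Real.log (N : ℝ) := ⟨_, rfl⟩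
  obtain ⟨lam, hlam⟩ : ∃ lam, lam = Real.log (M : ℝ) := ⟨_, rfl⟩
  rw [← hL] at a2 a3 hg hSW hdif ⊢
  have q1 : (0 : ℝ) ≤ (t + 2) * 4 ^ (t + 1) := by positivity
  have q2 : (0 : ℝ) ≤ K := Nat.cast_nonneg _
  have q3 : 0 ≤ 16 / ε := by positivity
  have q4 : 0 ≤ 8 / ε * (B * Cs * (t + 1) * lB * 2 ^ t) := by positivity
  have hL2 : 2 ≤ L := by linarith
  have hL1 : 1 ≤ L := by linarith
  have hL0 : 0 < L := by linarith
  have hlamL : lam = lB + L := by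
    rw [hlam, hMN, hlB, hL]
    push_cast
    rw [Real.log_mul (by positivity) hN0.ne']
  have hlam2 : lam ≤ 2 * L := by linarith
  have hlam0 : 0 < lam := by linarith
  have hLlam : L ≤ lam := by linarith
  obtain ⟨z, hz⟩ : ∃ z, z = ⌈L ^ (B0 + 1)⌉₊ := ⟨_, rfl⟩
  rw [← hz] at hSW hdif
  have hz1 : L ^ (B0 + 1) ≤ z := by rw [hz]; exact Nat.le_ceil _
  have hz2 : (z : ℝ) ≤ L ^ (B0 + 2) := by
    have h6 : (z : ℝ) < L ^ (B0 + 1) + 1 := by rw [hz]; exact Nat.ceil_lt_add_one (by positivity)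
    have h7 : 1 ≤ L ^ (B0 + 1) := one_le_pow₀ hL1
    have h8 : L ^ (B0 + 2) = L * L ^ (B0 + 1) := by rw [← pow_succ']
    rw [h8]
    nlinarith
  have hLz : L ≤ z := by
    refine le_trans ?_ hz1
    calc L = L ^ 1 := (pow_one L).symm
      _ ≤ _ := pow_le_pow_right₀ hL1 (by omega)
  have hKz : K ≤ z := by
    have : (K : ℝ) ≤ z := by linarith
    exact_mod_cast this
  have hz0 : (1 : ℝ) ≤ z := hL1.trans hLz
  obtain ⟨D, hD⟩ : ∃ D, D = M / yk k M := ⟨_, rfl⟩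
  have hDM : D ≤ M := by rw [hD]; exact Nat.div_le_self _ _
  have ha1 : 1 ≤ a.natAbs := Int.natAbs_pos.2 ha0
  obtain ⟨G, hGd⟩ : ∃ G, G = ∑ n ∈ Icc 1 X, g n := ⟨_, rfl⟩
  rw [← hGd] at hG hSW ⊢
  have hG0 : 0 ≤ G := by rw [hGd]; exact sum_nonneg fun n hn => (hg n hn).1
  obtain ⟨σ, hσ⟩ : ∃ σ, σ = sg a.natAbs := ⟨_, rfl⟩
  have hσ1 : 1 ≤ σ := by rw [hσ]; exact one_le_sg _ ha1
  have hσ0 : 0 ≤ σ := by linarith
  -- main term
  have m1 := h1 M (by omega) W hWb z hKz a.natAbs ha1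
  have m2 := (hTc a.natAbs ha1).1
  rw [← hD, ← hlam, ← hσ] at m1
  rw [← hσ] at m2
  rw [← hD] at hdif ⊢
  rw [← hσ]
  -- the error from the sums
  have hlD0 : 0 ≤ Real.log (D : ℝ) := Real.log_natCast_nonneg _
  have hlD : 1 + Real.log (D : ℝ) ≤ 4 * L := by
    have : Real.log (D : ℝ) ≤ lam := by
      rcases Nat.eq_zero_or_pos D with h | h
      · rw [h, Nat.cast_zero, Real.log_zero]
        exact hlam0.le
      · rw [hlam]
        exact Real.log_le_log (by exact_mod_cast h) (by exact_mod_cast hDM)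
    linarith
  obtain ⟨ρ, hρ⟩ : ∃ ρ : ℝ, ρ = (t + 2) * (z : ℝ) ^ (t + 1) * (4 * L) ^ (t + 1) := ⟨_, rfl⟩
  have hρ0 : 0 ≤ ρ := by rw [hρ]; positivity
  have hR : ∀ r, 1 ≤ r → r ≤ z → |RR W D r| ≤ ρ := by
    intro r hr hrz
    have hr0 : (1 : ℝ) ≤ r := by exact_mod_cast hr
    rw [abs_of_nonneg (RR_nonneg W D r hW0)]
    refine (RR_le W (t + 2) t D r hWle (by positivity) hr).trans ?_
    have h4 : r.divisors.card ≤ r := by
      calc r.divisors.card ≤ (Icc 1 r).card := by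
            apply card_le_card
            intro d hd
            rw [mem_Icc]
            exact ⟨Nat.pos_of_mem_divisors hd, Nat.divisor_le hd⟩
        _ = r := by rw [Nat.card_Icc]; omega
    have h5 : dk (t + 1) r ≤ z ^ (t + 1) := (dk_le_tau (t + 1) r).trans (Nat.pow_le_pow_left (h4.trans hrz) _)
    have h6 : (dk (t + 1) r : ℝ) ≤ (z : ℝ) ^ (t + 1) := by exact_mod_cast h5
    have h7 : (dk (t + 1) r : ℝ) / r ≤ (z : ℝ) ^ (t + 1) := (div_le_self (Nat.cast_nonneg _) hr0).trans h6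
    rw [hρ]
    apply mul_le_mul
    · exact mul_le_mul_of_nonneg_left h7 (by positivity)
    · exact pow_le_pow_left₀ (by linarith) hlD _
    · positivity
    · positivity
  obtain ⟨δ, hδ⟩ : ∃ δ : ℝ, δ = N / L ^ V := ⟨_, rfl⟩
  rw [← hδ] at hSW
  have hδ0 : 0 ≤ δ := by rw [hδ]; positivity
  have s1 := SF_eval W g G δ (L ^ T) ρ D z X a hR hρ0 (by positivity) (fun n hn => by
    rw [abs_of_nonneg (hg n hn).1]
    exact (hg n hn).2) hSW hδ0
  have hρ' : ρ ≤ (z : ℝ) ^ (t + 1) * L ^ (t + 2) := by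
    rw [hρ, mul_pow]
    calc ((t : ℝ) + 2) * (z : ℝ) ^ (t + 1) * (4 ^ (t + 1) * L ^ (t + 1)) = (z : ℝ) ^ (t + 1) * (((t + 2) * 4 ^ (t + 1)) * L ^ (t + 1)) := by ring
      _ ≤ (z : ℝ) ^ (t + 1) * (L * L ^ (t + 1)) := by
          apply mul_le_mul_of_nonneg_left _ (by positivity)
          apply mul_le_mul_of_nonneg_right _ (by positivity)
          linarith
      _ = _ := by rw [← pow_succ']
  have s2 : (z : ℝ) * (ρ * (z * z * δ)) ≤ N := by
    calc (z : ℝ) * (ρ * (z * z * δ)) ≤ z * (((z : ℝ) ^ (t + 1) * L ^ (t + 2)) * (z * z * δ)) := by gcongr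
      _ = (z : ℝ) ^ (t + 4) * (L ^ (t + 2) * δ) := by ring
      _ ≤ (L ^ (B0 + 2)) ^ (t + 4) * (L ^ (t + 2) * δ) := by gcongr
      _ = N := by
          rw [hδ, ← pow_mul, hV, show (B0 + 2) * (t + 4) + (t + 1) + 1 = (B0 + 2) * (t + 4) + (t + 2) by ring, pow_add L ((B0 + 2) * (t + 4)) (t + 2)]
          field_simp
  have s3 : L ^ T * (z * (ρ * z)) ≤ N := by
    calc L ^ T * (z * (ρ * z)) ≤ L ^ T * (z * (((z : ℝ) ^ (t + 1) * L ^ (t + 2)) * z)) := by gcongr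
      _ = L ^ T * (L ^ (t + 2) * (z : ℝ) ^ (t + 3)) := by ring
      _ ≤ L ^ T * (L ^ (t + 2) * (L ^ (B0 + 2)) ^ (t + 3)) := by gcongr
      _ = L ^ (T + 1 + (t + 1) + (B0 + 2) * (t + 3)) := by
          rw [← pow_mul, ← pow_add, ← pow_add]
          congr 1
          ring
      _ ≤ N := a3
  -- combination
  obtain ⟨Rs, hRs⟩ : ∃ Rs, Rs = ∑ r ∈ Icc 1 z, RR W D r * ha a.natAbs r := ⟨_, rfl⟩
  rw [← hRs] at s1 m1
  obtain ⟨f, hf⟩ : ∃ f : ℝ, f = ((t + 1).factorial : ℕ) := ⟨_, rfl⟩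
  rw [← hf] at m1 ⊢
  have hfac : (1 : ℝ) ≤ f := by rw [hf]; exact_mod_cast Nat.one_le_iff_ne_zero.2 (Nat.factorial_ne_zero _)
  have hf0 : 0 < f := by linarith
  obtain ⟨P, hP⟩ : ∃ P, P = L ^ (t + 1) := ⟨_, rfl⟩
  have hP0 : 0 < P := by rw [hP]; positivity
  have hLP : L ≤ P := by
    rw [hP]
    calc L = L ^ 1 := (pow_one L).symm
      _ ≤ _ := pow_le_pow_right₀ hL1 (by omega)
  rw [← hP]
  obtain ⟨Q, hQ⟩ : ∃ Q, Q = lam ^ (t + 1) := ⟨_, rfl⟩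
  rw [← hQ] at m1
  have hQP : Q ≤ 2 ^ (t + 1) * P := by
    rw [hQ, hP, ← mul_pow]
    exact pow_le_pow_left₀ hlam0.le hlam2 _
  have hQP2 : Q - P ≤ (t + 1) * lB * 2 ^ t * (P / L) := by
    rw [hQ, hP]
    refine (pow_sub_le t L lam hL0.le hLlam).trans ?_
    have h5 : lam ^ t ≤ 2 ^ t * L ^ t := by
      rw [← mul_pow]
      exact pow_le_pow_left₀ hlam0.le hlam2 _
    have h6 : lam - L = lB := by rw [hlamL]; ring
    have h7 : L ^ (t + 1) / L = L ^ t := by rw [pow_succ]; field_simp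
    rw [h6, h7]
    calc ((t : ℝ) + 1) * lB * lam ^ t ≤ (t + 1) * lB * (2 ^ t * L ^ t) := by gcongr
      _ = _ := by ring
  have hQP0 : 0 ≤ Q - P := by
    rw [hQ, hP]
    have := pow_le_pow_left₀ hL0.le hLlam (t + 1)
    linarith
  have c1 : |G * Rs - G * (Tc (t + 1) a.natAbs * (Q / f))| ≤ ε / 8 * (σ * N * P) := by
    rw [← mul_sub, abs_mul, abs_of_nonneg hG0]
    calc G * |Rs - Tc (t + 1) a.natAbs * (Q / f)| ≤ (B * N) * (C0 * (1 / k + (K : ℝ) ^ (-(1 / 8) : ℝ)) * σ * Q) :=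
          mul_le_mul hG m1 (abs_nonneg _) (by positivity)
      _ ≤ (B * N) * (C0 * (1 / k + (K : ℝ) ^ (-(1 / 8) : ℝ)) * σ * (2 ^ (t + 1) * P)) := by gcongr
      _ = (B * C0 * 2 ^ (t + 1) * (1 / k) + B * C0 * 2 ^ (t + 1) * (K : ℝ) ^ (-(1 / 8) : ℝ)) * (σ * N * P) := by ring
      _ ≤ (ε / 16 + ε / 16) * (σ * N * P) := by
          apply mul_le_mul_of_nonneg_right _ (by positivity)
          apply add_le_add _ hK
          rw [mul_one_div, div_le_iff₀ hk0]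
          have h5 : B * C0 * 2 ^ (t + 1) * (16 / ε) ≤ k := by
            have : (k₀ : ℝ) ≤ k := by exact_mod_cast (by omega : k₀ ≤ k)
            linarith
          have h6 : B * C0 * 2 ^ (t + 1) = ε / 16 * (B * C0 * 2 ^ (t + 1) * (16 / ε)) := by field_simp
          rw [h6]
          exact mul_le_mul_of_nonneg_left h5 (by positivity)
      _ = _ := by ring
  have c2 : |G * (Tc (t + 1) a.natAbs * (Q / f)) - Tc (t + 1) a.natAbs * (G * (P / f))| ≤ ε / 8 * (σ * N * P) := by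
    have e5 : G * (Tc (t + 1) a.natAbs * (Q / f)) - Tc (t + 1) a.natAbs * (G * (P / f)) = G * (Tc (t + 1) a.natAbs * ((Q - P) / f)) := by ring
    rw [e5, abs_mul, abs_mul, abs_of_nonneg hG0, abs_of_nonneg (div_nonneg hQP0 hf0.le)]
    calc G * (|Tc (t + 1) a.natAbs| * ((Q - P) / f)) ≤ (B * N) * ((Cs * σ) * ((t + 1) * lB * 2 ^ t * (P / L))) := by
          apply mul_le_mul hG _ (by positivity) (by positivity)
          apply mul_le_mul m2 _ (by positivity) (by positivity)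
          exact (div_le_self hQP0 hfac).trans hQP2
      _ = ((B * Cs * (t + 1) * lB * 2 ^ t) / L) * (σ * N * P) := by ring
      _ ≤ (ε / 8) * (σ * N * P) := by
          apply mul_le_mul_of_nonneg_right _ (by positivity)
          rw [div_le_iff₀ hL0]
          have h6 : B * Cs * (t + 1) * lB * 2 ^ t = ε / 8 * (8 / ε * (B * Cs * (t + 1) * lB * 2 ^ t)) := by field_simp
          rw [h6]
          exact mul_le_mul_of_nonneg_left (by linarith) (by positivity)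
  have hbase : (N : ℝ) * L ≤ σ * N * P := by
    calc (N : ℝ) * L ≤ N * P := mul_le_mul_of_nonneg_left hLP hN0.le
      _ ≤ σ * (N * P) := le_mul_of_one_le_left (by positivity) hσ1
      _ = _ := by ring
  have c3 : 2 * (N : ℝ) ≤ ε / 8 * (σ * N * P) := by
    have h5 : 16 / ε ≤ L := by linarith
    rw [div_le_iff₀ hε] at h5
    have h6 : 2 * (N : ℝ) ≤ ε / 8 * (N * L) := by nlinarith
    exact h6.trans (mul_le_mul_of_nonneg_left hbase (by positivity))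
  have c4 : ε / 8 * (N : ℝ) ≤ ε / 8 * (σ * N * P) := by
    apply mul_le_mul_of_nonneg_left _ (by positivity)
    refine le_trans ?_ hbase
    exact le_mul_of_one_le_right hN0.le hL1
  have hfin : |SF W D X g a - Tc (t + 1) a.natAbs * (G * (P / f))| ≤
      |SF W D X g a - dif W D z X g a - G * Rs| + |dif W D z X g a| + |G * Rs - G * (Tc (t + 1) a.natAbs * (Q / f))| +
      |G * (Tc (t + 1) a.natAbs * (Q / f)) - Tc (t + 1) a.natAbs * (G * (P / f))| := by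
    have habs : ∀ A B C D : ℝ, |A + B + C + D| ≤ |A| + |B| + |C| + |D| := by
      intro A B C D
      have h1 := abs_add_le (A + B + C) D
      have h3 := abs_add_le (A + B) C
      have h4 := abs_add_le A B
      linarith
    refine le_trans (le_of_eq ?_) (habs _ _ _ _)
    congr 1
    ring
  linarith

end Pool.Agent.V11290.TD
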