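import Pool.Agent.V11290.TD.T5

set_option autoImplicit false

/-! The divisor sum of Titchmarsh type along thin families of residues. -/

namespace Pool.Agent.V11290.TD
open Finset
open Pool.Agent.TH212.DV
open Pool.Agent.H373R2.T7 (energy)
open Pool.Agent.V11290.TI

/-- the part of the small arguments is small -/
lemma small_part (B t T k : ℕ) (hk : 2 * ((t + 2) * (t + 3)) ≤ k) (hk2 : 2 ≤ k) : ∃ N₀ : ℕ, ∀ N : ℕ, N₀ ≤ N →
    Real.log N ^ T * ((yk k (big B N) ^ (t + 2) : ℕ) : ℝ) ^ (t + 2) * (2 * ((yk k (big B N) ^ (t + 2) : ℕ) : ℝ)) ≤ N := by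
  obtain ⟨e, he⟩ : ∃ e, e = (t + 2) * (t + 3) := ⟨_, rfl⟩
  obtain ⟨n1, h1⟩ := ev_pow T (2 * 2 ^ e * (2 * (B + 1)) : ℝ) (1 / 2) (by norm_num)
  obtain ⟨n2, h2⟩ := ev_log 1
  refine ⟨n1 + n2 + 3, fun N hN => ?_⟩
  have a1 := h1 N (by omega)
  have a2 := h2 N (by omega)
  have hN1 : 1 ≤ N := by omega
  have hN1r : (1 : ℝ) ≤ N := by exact_mod_cast hN1
  have hN0 : (0 : ℝ) < N := by linarith
  have hk0 : (0 : ℝ) < k := by exact_mod_cast (by omega : 0 < k)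
  obtain ⟨M, hM⟩ : ∃ M, M = big B N := ⟨_, rfl⟩
  have hMN : M = 2 * (B + 1) * N := hM
  have hM1 : 1 ≤ M := by
    rw [hMN]
    exact Nat.mul_pos (by omega) hN1
  have hM1r : (1 : ℝ) ≤ M := by exact_mod_cast hM1
  rw [← hM]
  have g3 := yk_le k M hM1
  obtain ⟨y, hy⟩ : ∃ y : ℝ, y = (yk k M : ℝ) := ⟨_, rfl⟩
  rw [← hy] at g3
  have hy0 : 0 ≤ y := by rw [hy]; exact Nat.cast_nonneg _
  have hlog0 : 0 ≤ Real.log (N : ℝ) := by linarith
  have e1 : Real.log N ^ T * ((yk k M ^ (t + 2) : ℕ) : ℝ) ^ (t + 2) * (2 * ((yk k M ^ (t + 2) : ℕ) : ℝ)) = 2 * Real.log N ^ T * y ^ e := by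
    push_cast
    rw [← hy, ← pow_mul, he]
    have : (t + 2) * (t + 3) = (t + 2) * (t + 2) + (t + 2) := by ring
    rw [this, pow_add]
    ring
  rw [e1]
  have h3 : y ^ e ≤ 2 ^ e * (M : ℝ) ^ (1 / 2 : ℝ) := by
    calc y ^ e ≤ (2 * (M : ℝ) ^ ((1 : ℝ) / k)) ^ e := pow_le_pow_left₀ hy0 g3 _
      _ = 2 ^ e * (M : ℝ) ^ ((1 : ℝ) / k * e) := by
          rw [mul_pow, ← Real.rpow_natCast ((M : ℝ) ^ ((1 : ℝ) / k)), ← Real.rpow_mul (by linarith)]
      _ ≤ _ := by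
          apply mul_le_mul_of_nonneg_left _ (by positivity)
          apply Real.rpow_le_rpow_of_exponent_le hM1r
          rw [one_div_mul_eq_div, div_le_div_iff₀ hk0 (by norm_num)]
          have : (2 * e : ℕ) ≤ k := by rw [he]; exact hk
          have h5 : (2 : ℝ) * e ≤ k := by exact_mod_cast this
          linarith
  have h4 : (M : ℝ) ^ (1 / 2 : ℝ) ≤ (2 * (B + 1)) * (N : ℝ) ^ (1 / 2 : ℝ) := by
    have h5 : (M : ℝ) = (2 * (B + 1)) * N := by rw [hMN]; push_cast; ring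
    have hB0 : (0 : ℝ) ≤ B := Nat.cast_nonneg _
    rw [h5, Real.mul_rpow (by positivity) hN0.le]
    apply mul_le_mul_of_nonneg_right _ (by positivity)
    calc (2 * ((B : ℝ) + 1)) ^ (1 / 2 : ℝ) ≤ (2 * ((B : ℝ) + 1)) ^ (1 : ℝ) := Real.rpow_le_rpow_of_exponent_le (by linarith) (by norm_num)
      _ = _ := Real.rpow_one _
  calc 2 * Real.log N ^ T * y ^ e ≤ 2 * Real.log N ^ T * (2 ^ e * ((2 * (B + 1)) * (N : ℝ) ^ (1 / 2 : ℝ))) := by
        apply mul_le_mul_of_nonneg_left _ (by positivity)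
        exact h3.trans (mul_le_mul_of_nonneg_left h4 (by positivity))
    _ = (2 * 2 ^ e * (2 * (B + 1)) * Real.log N ^ T) * (N : ℝ) ^ (1 / 2 : ℝ) := by ring
    _ ≤ (N : ℝ) ^ (1 / 2 : ℝ) * (N : ℝ) ^ (1 / 2 : ℝ) := mul_le_mul_of_nonneg_right a1 (by positivity)
    _ = N := by rw [← Real.rpow_add hN0]; norm_num

theorem fam_tm (p B C t T U : ℕ) (ε : ℝ) (hε : 0 < ε) : ∃ E V N₀ : ℕ, ∀ N : ℕ, N₀ ≤ N → ∀ (x : ℕ) (s : ℕ → ℤ),
    (∀ m ∈ Icc 1 x, |s m| ≤ B * N) → (energy p x s : ℝ) * N ≤ Real.log N ^ C * (x : ℝ) ^ (2 * p) →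
    ∀ Ln : ℕ, (Ln : ℝ) ≤ Real.log N ^ T → ∀ X : Fin Ln → ℕ, (∀ l, X l ≤ B * N) → ∀ g : Fin Ln → ℕ → ℝ,
    (∀ l, ∀ n ∈ Icc 1 (X l), 0 ≤ g l n ∧ g l n ≤ Real.log N ^ T) → (∀ l, ∑ n ∈ Icc 1 (X l), g l n ≤ B * N) →
    ∀ 𝒮 : Finset ℕ, 𝒮 ⊆ Icc 1 x → (∀ m ∈ 𝒮, s m ≠ 0 ∧ ∃ l,
      SW (g l) (∑ n ∈ Icc 1 (X l), g l n) (X l) ⌈Real.log N ^ E⌉₊ (N / Real.log N ^ V) ∧
      ε * (sg (s m).natAbs * N * Real.log N ^ (t + 1)) < |St (t + 2) (X l) (g l) (s m) -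
        Tc (t + 1) (s m).natAbs * ((∑ n ∈ Icc 1 (X l), g l n) * (Real.log N ^ (t + 1) / ((t + 1).factorial : ℕ)))|) →
    (𝒮.card : ℝ) ≤ x / Real.log N ^ U := by
  classical
  obtain ⟨k₀, hk₀2, hk₀⟩ := weight_asymp B t T ε hε
  obtain ⟨k, hk⟩ : ∃ k, k = k₀ + 2 * ((t + 2) * (t + 3)) + 2 := ⟨_, rfl⟩
  obtain ⟨U2, hU2⟩ : ∃ U2, U2 = T + U + 1 := ⟨_, rfl⟩
  obtain ⟨B0, hmom⟩ := mom2 p B C (2 * T + 1) t k U2 (by omega)
  obtain ⟨V, n1, h1⟩ := hk₀ k (by omega) B0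
  obtain ⟨n2, h2⟩ := hmom (B0 + 2)
  obtain ⟨n3, h3⟩ := small_part B t T k (by omega) (by omega)
  obtain ⟨n4, h4⟩ := ev_log (B + 32 / ε + 2 : ℝ)
  refine ⟨B0 + 1, V, n1 + n2 + n3 + n4 + 3, fun N hN x s hs hE Ln hLn X hX g hg hG 𝒮 h𝒮x h𝒮 => ?_⟩
  have a3 := h3 N (by omega)
  have a4 := h4 N (by omega)
  have hN1 : 1 ≤ N := by omega
  have hN0 : (0 : ℝ) < N := by exact_mod_cast hN1
  have hmm := h2 N (by omega) x s hs hE
  have hww := h1 N (by omega)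
  obtain ⟨M, hM⟩ : ∃ M, M = big B N := ⟨_, rfl⟩
  rw [← hM] at a3 hmm hww
  have hMN : M = 2 * (B + 1) * N := hM
  have hM1 : 1 ≤ M := by
    rw [hMN]
    exact Nat.mul_pos (by omega) hN1
  obtain ⟨L, hL⟩ : ∃ L, L = Real.log (N : ℝ) := ⟨_, rfl⟩
  rw [← hL] at a3 a4 hE hmm hww hLn hg h𝒮 ⊢
  have hB0 : (0 : ℝ) ≤ B := Nat.cast_nonneg _
  have hx0 : (0 : ℝ) ≤ x := Nat.cast_nonneg _
  have q3 : 0 ≤ 32 / ε := by positivity
  have hL2 : 2 ≤ L := by linarith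
  have hL1 : 1 ≤ L := by linarith
  have hL0 : 0 < L := by linarith
  have hLε : 32 / ε ≤ L := by linarith
  obtain ⟨z, hz⟩ : ∃ z, z = ⌈L ^ (B0 + 1)⌉₊ := ⟨_, rfl⟩
  rw [← hz] at h𝒮
  rw [← hz] at hww
  have hz1 : L ^ (B0 + 1) ≤ z := by rw [hz]; exact Nat.le_ceil _
  have hz2 : (z : ℝ) ≤ L ^ (B0 + 2) := by
    have h6 : (z : ℝ) < L ^ (B0 + 1) + 1 := by rw [hz]; exact Nat.ceil_lt_add_one (by positivity)
    have h7 : 1 ≤ L ^ (B0 + 1) := one_le_pow₀ hL1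
    have h8 : L ^ (B0 + 2) = L * L ^ (B0 + 1) := by rw [← pow_succ']
    rw [h8]
    nlinarith
  have hz3 : L ^ B0 ≤ z := (pow_le_pow_right₀ hL1 (by omega)).trans hz1
  -- the two weights
  obtain ⟨D, hD⟩ : ∃ D, D = M / yk k M := ⟨_, rfl⟩
  obtain ⟨Wt, hWt⟩ : ∃ Wt : Bool → ℕ → ℝ, Wt = fun b => if b then WU (yk k M) t else WL t := ⟨_, rfl⟩
  have hWb : ∀ b, Between t k M (Wt b) := by
    intro b
    rw [hWt]
    cases b
    · exact between_WL t k M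
    · exact between_WU t k M hM1
  have hgsq : ∀ l, ∑ n ∈ Icc 1 (X l), g l n ^ 2 ≤ N * L ^ (2 * T + 1) := by
    intro l
    have e1 : ∀ n ∈ Icc 1 (X l), g l n ^ 2 ≤ L ^ (2 * T) := by
      intro n hn
      rw [mul_comm 2 T, pow_mul]
      exact pow_le_pow_left₀ (hg l n hn).1 (hg l n hn).2 2
    refine (sum_le_sum e1).trans ?_
    rw [sum_const, Nat.card_Icc, nsmul_eq_mul]
    have e2 : ((X l + 1 - 1 : ℕ) : ℝ) ≤ B * N := by
      have : X l + 1 - 1 ≤ B * N := by have := hX l; omega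
      exact_mod_cast this
    calc ((X l + 1 - 1 : ℕ) : ℝ) * L ^ (2 * T) ≤ (B * N) * L ^ (2 * T) := by gcongr
      _ = N * (L ^ (2 * T) * B) := by ring
      _ ≤ N * (L ^ (2 * T) * L) := by
          gcongr
          linarith
      _ = _ := by rw [pow_succ]
  obtain ⟨R, hR⟩ : ∃ R : ℝ, R = ε / 8 * N := ⟨_, rfl⟩
  have hR0 : 0 < R := by rw [hR]; positivity
  have hdet : ∀ m ∈ 𝒮, ∃ l : Fin Ln, ∃ b : Bool, R < |dif (Wt b) D z (X l) (g l) (s m)| := by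
    intro m hm
    obtain ⟨hs0, l, hSW, hbig⟩ := h𝒮 m hm
    by_contra hcon
    push Not at hcon
    have hc := hcon l
    have w : ∀ b, |SF (Wt b) D (X l) (g l) (s m) - Tc (t + 1) (s m).natAbs * ((∑ n ∈ Icc 1 (X l), g l n) * (L ^ (t + 1) / ((t + 1).factorial : ℕ)))| ≤
        ε / 2 * (sg (s m).natAbs * N * L ^ (t + 1)) := by
      intro b
      have h5 := hww (Wt b) (hWb b) (X l) (hX l) (g l) (hg l) (hG l) (s m) hs0 hSW (by
        rw [← hD, ← hR]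
        exact hc b)
      rw [← hD] at h5
      exact h5
    have wL := w false
    have wU := w true
    have hWf : Wt false = WL t := by rw [hWt]; rfl
    have hWtr : Wt true = WU (yk k M) t := by rw [hWt]; rfl
    rw [hWf] at wL
    rw [hWtr] at wU
    have b1 := St_lower t D (X l) (g l) (s m) (fun n hn => (hg l n hn).1)
    have hbd : ∀ n ∈ Icc 1 (X l), ((n : ℤ) - s m).natAbs ≤ M := by
      intro n hn
      rw [mem_Icc] at hn
      have b2 := abs_le.1 (hs m (h𝒮x hm))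
      have b3 : (n : ℤ) ≤ B * N := by exact_mod_cast hn.2.trans (hX l)
      have b4 : (1 : ℤ) ≤ n := by exact_mod_cast hn.1
      have b5 : (M : ℤ) = 2 * (B * N) + 2 * N := by rw [hMN]; push_cast; ring
      have b6 : (1 : ℤ) ≤ N := by exact_mod_cast hN1
      have b7 : |(n : ℤ) - s m| ≤ M := by
        rw [b5, abs_le]
        constructor <;> linarith
      have b8 : (((n : ℤ) - s m).natAbs : ℤ) ≤ M := by rw [Int.natCast_natAbs]; exact b7
      exact_mod_cast b8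
    have b9 := St_upper t M (yk k M) (X l) (g l) (L ^ T) (s m) (yk_pos k M hM1) hbd (fun n hn => (hg l n hn).1) (by positivity)
      (fun n hn => (hg l n hn).2)
    rw [← hD] at b9
    have hσ1 : 1 ≤ sg (s m).natAbs := one_le_sg _ (Int.natAbs_pos.2 hs0)
    obtain ⟨Q, hQ⟩ : ∃ Q, Q = sg (s m).natAbs * N * L ^ (t + 1) := ⟨_, rfl⟩
    rw [← hQ] at hbig wL wU
    have hNQ : (N : ℝ) ≤ ε / 8 * Q := by
      have hLP : L ≤ L ^ (t + 1) := by
        calc L = L ^ 1 := (pow_one L).symm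
          _ ≤ _ := pow_le_pow_right₀ hL1 (by omega)
      have h5 : (N : ℝ) * L ≤ Q := by
        rw [hQ]
        calc (N : ℝ) * L ≤ N * L ^ (t + 1) := mul_le_mul_of_nonneg_left hLP hN0.le
          _ ≤ sg (s m).natAbs * (N * L ^ (t + 1)) := le_mul_of_one_le_left (by positivity) hσ1
          _ = _ := by ring
      have h6 : 8 / ε ≤ L := by
        refine le_trans ?_ hLε
        exact div_le_div_of_nonneg_right (by norm_num) hε.le
      rw [div_le_iff₀ hε] at h6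
      have h7 : (N : ℝ) ≤ ε / 8 * (N * L) := by nlinarith
      exact h7.trans (mul_le_mul_of_nonneg_left h5 (by positivity))
    rw [abs_le] at wL wU
    have hQ0 : 0 < ε * Q := by
      have : 0 < ε / 8 * Q := lt_of_lt_of_le hN0 hNQ
      linarith
    have hfin : |St (t + 2) (X l) (g l) (s m) - Tc (t + 1) (s m).natAbs * ((∑ n ∈ Icc 1 (X l), g l n) * (L ^ (t + 1) / ((t + 1).factorial : ℕ)))| ≤ ε * Q := by
      rw [abs_le]
      constructor <;> linarith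
    linarith
  have hsub : 𝒮 ⊆ (univ : Finset (Fin Ln × Bool)).biUnion (fun i => (Icc 1 x).filter (fun m => R < |dif (Wt i.2) D z (X i.1) (g i.1) (s m)|)) := by
    intro m hm
    obtain ⟨l, b, h⟩ := hdet m hm
    rw [mem_biUnion]
    exact ⟨(l, b), mem_univ _, mem_filter.2 ⟨h𝒮x hm, h⟩⟩
  have hcard : ∀ i : Fin Ln × Bool, (((Icc 1 x).filter (fun m => R < |dif (Wt i.2) D z (X i.1) (g i.1) (s m)|)).card : ℝ) ≤ 8 / ε * (x / L ^ U2) := by
    intro i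
    obtain ⟨w0, w1, _⟩ := hWb i.2
    have e3 := hmm z hz3 hz2 (X i.1) (hX i.1) (g i.1) (hgsq i.1) (Wt i.2) w0 w1
    rw [← hD] at e3
    obtain ⟨F, hF⟩ : ∃ F, F = (Icc 1 x).filter (fun m => R < |dif (Wt i.2) D z (X i.1) (g i.1) (s m)|) := ⟨_, rfl⟩
    rw [← hF]
    have e4 : (F.card : ℝ) * R ≤ N * x / L ^ U2 := by
      calc (F.card : ℝ) * R = ∑ m ∈ F, R := by rw [sum_const, nsmul_eq_mul]
        _ ≤ ∑ m ∈ F, |dif (Wt i.2) D z (X i.1) (g i.1) (s m)| := by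
            apply sum_le_sum
            intro m hm
            rw [hF, mem_filter] at hm
            exact hm.2.le
        _ ≤ ∑ m ∈ Icc 1 x, |dif (Wt i.2) D z (X i.1) (g i.1) (s m)| := by
            apply sum_le_sum_of_subset_of_nonneg
            · rw [hF]
              exact filter_subset _ _
            · intro m _ _
              exact abs_nonneg _
        _ ≤ _ := e3
    rw [← le_div_iff₀ hR0] at e4
    refine e4.trans (le_of_eq ?_)
    rw [hR]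
    field_simp
  have h5 : (𝒮.card : ℝ) ≤ ∑ i : Fin Ln × Bool, (((Icc 1 x).filter (fun m => R < |dif (Wt i.2) D z (X i.1) (g i.1) (s m)|)).card : ℝ) := by
    have h6 := (card_le_card hsub).trans card_biUnion_le
    exact_mod_cast h6
  refine (h5.trans (sum_le_sum fun i _ => hcard i)).trans ?_
  rw [sum_const, card_univ, Fintype.card_prod, Fintype.card_fin, Fintype.card_bool, nsmul_eq_mul]
  push_cast
  calc (Ln : ℝ) * 2 * (8 / ε * (x / L ^ U2)) ≤ L ^ T * 2 * (8 / ε * (x / L ^ U2)) := by gcongr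
    _ = (16 / ε / L) * (x / L ^ U) := by
        rw [hU2, show T + U + 1 = T + (U + 1) by ring, pow_add L T, pow_succ L U]
        field_simp
        ring
    _ ≤ 1 * (x / L ^ U) := by
        apply mul_le_mul_of_nonneg_right _ (by positivity)
        rw [div_le_one hL0]
        refine le_trans ?_ hLε
        exact div_le_div_of_nonneg_right (by norm_num) hε.le
    _ = _ := one_mul _

end Pool.Agent.V11290.TD
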