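import Pool.Agent.V11290.TD.T6
import Pool.Agent.V11290.TI.A7
import Pool.Agent.V11290.FD.Fam4

set_option autoImplicit false

/-! The divisor sum of Titchmarsh type for residues near `t α + s`. -/

namespace Pool.Agent.V11290.TD
open Finset
open MeasureTheory
open Pool.Agent.TH212.DV
open Pool.Agent.V11290.TI

theorem tm_ae (μ : Measure ℝ) [IsProbabilityMeasure μ] (B : ℝ) (hμ : ∀ᵐ α ∂μ, |α| ≤ B)
    (C σ : ℝ) (hσ : 0 < σ) (hdec : ∀ ξ : ℝ, 1 ≤ |ξ| → ‖charFun μ ξ‖ ≤ C * |ξ| ^ (-σ))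
    (J : Type) (t s : J → ℝ) (ht : ∀ j, 2 ≤ t j) (hs : ∀ j, |s j| ≤ B * t j)
    (hsum : ∃ V : ℕ, Summable fun j => 1 / Real.log (t j) ^ V) (G T k : ℕ) (t₁ : ℝ) (Ln : J → ℕ)
    (hL : ∀ j, t₁ ≤ t j → (Ln j : ℝ) ≤ Real.log (t j) ^ T) (X : (j : J) → Fin (Ln j) → ℕ)
    (hX : ∀ j, t₁ ≤ t j → ∀ l, X j l ≤ G * ⌈t j⌉₊)
    (g : (j : J) → Fin (Ln j) → ℕ → ℝ)
    (hg : ∀ j, t₁ ≤ t j → ∀ l, ∀ n ∈ Icc 1 (X j l), 0 ≤ g j l n ∧ g j l n ≤ Real.log (t j) ^ T)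
    (hG : ∀ j, t₁ ≤ t j → ∀ l, ∑ n ∈ Icc 1 (X j l), g j l n ≤ G * ⌈t j⌉₊) :
    ∀ᵐ α ∂μ, ∀ A i : ℕ, ∃ E V : ℕ,
      {j | ¬ ∀ a : ℤ, a ≠ 0 → |(a : ℝ) - (t j * α + s j)| ≤ Real.log (t j) ^ A → ∀ l,
        SW (g j l) (∑ n ∈ Icc 1 (X j l), g j l n) (X j l) ⌈Real.log ⌈t j⌉₊ ^ E⌉₊ (⌈t j⌉₊ / Real.log ⌈t j⌉₊ ^ V) →
        |St (k + 2) (X j l) (g j l) a - Tc (k + 1) a.natAbs * ((∑ n ∈ Icc 1 (X j l), g j l n) *
          (Real.log ⌈t j⌉₊ ^ (k + 1) / ((k + 1).factorial : ℕ)))| ≤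
          1 / ((i : ℝ) + 1) * (sg a.natAbs * ⌈t j⌉₊ * Real.log ⌈t j⌉₊ ^ (k + 1))}.Finite := by
  classical
  obtain ⟨V, hV⟩ := hsum
  obtain ⟨p, hp⟩ := exists_nat_ge (1 / σ)
  obtain ⟨B₁, hB₁⟩ := exists_nat_ge (2 * (|B| + 1) + 8)
  have hpσ : 1 ≤ ((p + 1 : ℕ) : ℝ) * σ := by
    rw [div_le_iff₀ hσ] at hp
    push_cast
    nlinarith
  choose E V' N₀ h0 using fun A i : ℕ => fam_tm (p + 1) (max B₁ G) 1 k T (V + A + 2) (1 / ((i : ℝ) + 1)) (by positivity)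
  have h := Pool.Agent.V11290.FD.abs_one' (|B| + 1) C σ (by positivity) hσ μ hdec
    (by
      filter_upwards [hμ] with α hα
      linarith [le_abs_self B]) t s ht V hV (fun j => (hs j).trans (by nlinarith [ht j, le_abs_self B])) (p + 1) (by omega) hpσ B₁ hB₁
    (fun A i j a => a ≠ 0 → ∀ l,
        SW (g j l) (∑ n ∈ Icc 1 (X j l), g j l n) (X j l) ⌈Real.log ⌈t j⌉₊ ^ (E A i)⌉₊ (⌈t j⌉₊ / Real.log ⌈t j⌉₊ ^ (V' A i)) →
        |St (k + 2) (X j l) (g j l) a - Tc (k + 1) a.natAbs * ((∑ n ∈ Icc 1 (X j l), g j l n) *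
          (Real.log ⌈t j⌉₊ ^ (k + 1) / ((k + 1).factorial : ℕ)))| ≤
          1 / ((i : ℝ) + 1) * (sg a.natAbs * ⌈t j⌉₊ * Real.log ⌈t j⌉₊ ^ (k + 1))) (by
    intro A i
    refine ⟨max (max (N₀ A i) t₁) (Real.exp 1), fun j hj x v hx hv hE 𝒮 h𝒮 hbad => ?_⟩
    have hN1 : t j ≤ (⌈t j⌉₊ : ℝ) := Nat.le_ceil _
    have hN : N₀ A i ≤ ⌈t j⌉₊ := by
      have : (N₀ A i : ℝ) ≤ (⌈t j⌉₊ : ℝ) := (((le_max_left _ _).trans (le_max_left _ _)).trans hj).trans hN1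
      exact_mod_cast this
    have ht1 : t₁ ≤ t j := ((le_max_right _ _).trans (le_max_left _ _)).trans hj
    have htj : 0 < t j := by linarith [ht j]
    have hlog : Real.log (t j) ≤ Real.log (⌈t j⌉₊ : ℝ) := Real.log_le_log htj hN1
    have hlog0 : 0 ≤ Real.log (t j) := Real.log_nonneg (by linarith [ht j])
    have hT : Real.log (t j) ^ T ≤ Real.log (⌈t j⌉₊ : ℝ) ^ T := pow_le_pow_left₀ hlog0 hlog T
    have hGm : (G : ℝ) ≤ (max B₁ G : ℕ) := by exact_mod_cast le_max_right _ _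
    exact h0 A i ⌈t j⌉₊ hN x v (fun m hm => (hv m hm).trans (by
        apply mul_le_mul_of_nonneg_right _ (by positivity)
        exact_mod_cast le_max_left _ _)) (by rw [pow_one]; exact hE) (Ln j) ((hL j ht1).trans hT) (X j)
      (fun l => (hX j ht1 l).trans (Nat.mul_le_mul_right _ (le_max_right _ _))) (g j)
      (fun l n hn => ⟨(hg j ht1 l n hn).1, (hg j ht1 l n hn).2.trans hT⟩)
      (fun l => (hG j ht1 l).trans (mul_le_mul_of_nonneg_right hGm (Nat.cast_nonneg _))) 𝒮 h𝒮 (by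
      intro m hm
      have h2 := hbad m hm
      push Not at h2
      obtain ⟨h3, l, h4, h5⟩ := h2
      exact ⟨h3, l, h4, h5⟩))
  filter_upwards [h] with α hα A i
  refine ⟨E A i, V' A i, (hα A i).subset ?_⟩
  intro j hj
  rw [Set.mem_ofPred_eq] at hj ⊢
  intro hall
  exact hj fun a ha0 ha l => hall a ha ha0 l

/-- the von Mangoldt function as a real function on the natural numbers -/
noncomputable def Lm (n : ℕ) : ℝ := ArithmeticFunction.vonMangoldt n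

lemma Lm_nonneg (n : ℕ) : 0 ≤ Lm n := ArithmeticFunction.vonMangoldt_nonneg

lemma psi_close : ∃ N₀ : ℕ, ∀ N : ℕ, N₀ ≤ N → ∀ y : ℕ, y ≤ N → |∑ n ∈ Icc 1 y, Lm n - y| ≤ N / Real.log N := by
  obtain ⟨n0, h0⟩ := Pool.Agent.H373R2.T7.lam_ap 1 1
  obtain ⟨n1, h1⟩ := ev_log 1
  refine ⟨n0 + n1, fun N hN y hy => ?_⟩
  have a1 := h1 N (by omega)
  have k2 := h0 N (by omega) 1 le_rfl (by rw [Nat.cast_one, pow_one]; exact a1) 0 y hy
  have hone : ∑ n ∈ (Icc 1 y).filter (fun n => n ≡ 0 [MOD 1]), ArithmeticFunction.vonMangoldt n = ∑ n ∈ Icc 1 y, Lm n := by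
    rw [filter_true_of_mem]
    · rfl
    · intro n _
      exact Nat.modEq_one
  rw [hone, if_pos (Nat.coprime_one_right 0), Nat.totient_one, Nat.cast_one, div_one, pow_one] at k2
  exact k2

lemma St_mono (s X Y : ℕ) (g : ℕ → ℝ) (hg : ∀ n, 0 ≤ g n) (a : ℤ) (h : X ≤ Y) : St s X g a ≤ St s Y g a := by
  unfold St
  apply sum_le_sum_of_subset_of_nonneg (Icc_subset_Icc_right h)
  intro n _ _
  apply mul_nonneg (hg n)
  split_ifs
  · exact le_rfl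
  · exact Nat.cast_nonneg _

/-- interpolation between the points of a grid -/
lemma grid (k : ℕ) (Cs : ℝ) (hCs : 0 ≤ Cs) (hTc : ∀ H : ℕ, 1 ≤ H → |Tc (k + 1) H| ≤ Cs * sg H) (G N H : ℕ) (hG : 1 ≤ G) (hN : 1 ≤ N)
    (hH : 1 ≤ H) (L ε η : ℝ) (hL : 1 ≤ L) (hη : 0 ≤ η) (a : ℤ) (ha : a ≠ 0) (hpsi : ∀ y : ℕ, y ≤ G * N → |∑ n ∈ Icc 1 y, Lm n - y| ≤ η * N)
    (hgr : ∀ l : ℕ, l < H → |St (k + 2) ((l + 1) * (G * N) / H) Lm a - Tc (k + 1) a.natAbs * ((∑ n ∈ Icc 1 ((l + 1) * (G * N) / H), Lm n) *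
          (L ^ (k + 1) / ((k + 1).factorial : ℕ)))| ≤ ε * (sg a.natAbs * N * L ^ (k + 1))) (X : ℕ) (hX : X ≤ G * N) :
    |St (k + 2) X Lm a - Tc (k + 1) a.natAbs * ((X : ℝ) * (L ^ (k + 1) / ((k + 1).factorial : ℕ)))| ≤
      (|ε| + Cs * (η + G / H + 1 / N)) * (sg a.natAbs * N * L ^ (k + 1)) := by
  obtain ⟨M, hM⟩ : ∃ M, M = G * N := ⟨_, rfl⟩
  have hM1 : 1 ≤ M := by rw [hM]; exact Nat.mul_pos hG hN
  have hMr : (M : ℝ) = G * N := by rw [hM]; push_cast; ring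
  rw [← hM] at hpsi hgr hX
  have hN0 : (0 : ℝ) < N := by exact_mod_cast hN
  have hH0 : (0 : ℝ) < H := by exact_mod_cast hH
  have ha1 : 1 ≤ a.natAbs := Int.natAbs_pos.2 ha
  have hσ0 : 0 ≤ sg a.natAbs := sg_nonneg _
  have hT := hTc a.natAbs ha1
  obtain ⟨P, hP⟩ : ∃ P : ℝ, P = L ^ (k + 1) / ((k + 1).factorial : ℕ) := ⟨_, rfl⟩
  obtain ⟨Q, hQ⟩ : ∃ Q : ℝ, Q = sg a.natAbs * N * L ^ (k + 1) := ⟨_, rfl⟩
  rw [← hP, ← hQ] at hgr ⊢
  have hfac : (1 : ℝ) ≤ ((k + 1).factorial : ℕ) := by exact_mod_cast Nat.one_le_iff_ne_zero.2 (Nat.factorial_ne_zero _)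
  have hL0 : (0 : ℝ) ≤ L ^ (k + 1) := by positivity
  have hP0 : 0 ≤ P := by rw [hP]; positivity
  have hPL : P ≤ L ^ (k + 1) := by rw [hP]; exact div_le_self hL0 hfac
  have hQ0 : 0 ≤ Q := by rw [hQ]; positivity
  -- the grid
  obtain ⟨gr, hgrd⟩ : ∃ gr : ℕ → ℕ, gr = fun l => l * M / H := ⟨_, rfl⟩
  have hgr0 : ∀ l : ℕ, l ≤ H → |St (k + 2) (gr l) Lm a - Tc (k + 1) a.natAbs * ((∑ n ∈ Icc 1 (gr l), Lm n) * P)| ≤ |ε| * Q := by
    intro l hl
    rcases Nat.eq_zero_or_pos l with h | h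
    · have e0 : gr l = 0 := by rw [hgrd, h]; simp
      rw [e0]
      unfold St
      simp only [Icc_eq_empty_of_lt (show (0 : ℕ) < 1 by omega), sum_empty, zero_mul, mul_zero, sub_zero, abs_zero]
      positivity
    · have h1 := hgr (l - 1) (by omega)
      have e0 : (l - 1 + 1) * M / H = gr l := by rw [hgrd]; simp only; rw [show l - 1 + 1 = l by omega]
      rw [e0] at h1
      exact h1.trans (mul_le_mul_of_nonneg_right (le_abs_self ε) hQ0)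
  obtain ⟨l, hl⟩ : ∃ l, l = min (X * H / M) (H - 1) := ⟨_, rfl⟩
  have hlH : l + 1 ≤ H := by rw [hl]; have := min_le_right (X * H / M) (H - 1); omega
  have hlow : gr l ≤ X := by
    rw [hgrd]
    simp only
    have h1 : l * M ≤ X * H := by
      calc l * M ≤ (X * H / M) * M := Nat.mul_le_mul_right _ (by rw [hl]; exact min_le_left _ _)
        _ ≤ X * H := Nat.div_mul_le_self _ _
    calc l * M / H ≤ X * H / H := Nat.div_le_div_right h1
      _ = X := Nat.mul_div_cancel _ (by omega)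
  have hhigh : X ≤ gr (l + 1) := by
    rw [hgrd]
    simp only
    rw [Nat.le_div_iff_mul_le (by omega)]
    rcases le_total (X * H / M) (H - 1) with h | h
    · have e1 : l = X * H / M := by rw [hl, min_eq_left h]
      rw [e1]
      have := Nat.lt_div_mul_add (a := X * H) (b := M) (by omega)
      have e2 : (X * H / M + 1) * M = X * H / M * M + M := by ring
      rw [e2]
      exact this.le
    · have e1 : l + 1 = H := by rw [hl, min_eq_right h]; omega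
      rw [e1, Nat.mul_comm H M]
      exact Nat.mul_le_mul_right _ hX
  have hgM : ∀ l, l ≤ H → gr l ≤ M := by
    intro l hl
    rw [hgrd]
    simp only
    calc l * M / H ≤ H * M / H := Nat.div_le_div_right (Nat.mul_le_mul_right _ hl)
      _ = M := Nat.mul_div_cancel_left _ (by omega)
  have hgap : (gr (l + 1) : ℝ) - gr l ≤ M / H + 1 := by
    have h1 : (gr (l + 1) : ℝ) ≤ ((l + 1 : ℕ) : ℝ) * M / H := by
      rw [hgrd]
      simp only
      refine Nat.cast_div_le.trans (le_of_eq ?_)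
      push_cast
      ring
    have h2 : (l : ℝ) * M / H - 1 ≤ gr l := by
      rw [hgrd]
      simp only
      have h3 := Nat.lt_div_mul_add (a := l * M) (b := H) (by omega)
      have h4 : (l * M : ℝ) < ((l * M / H : ℕ) : ℝ) * H + H := by exact_mod_cast h3
      rw [sub_le_iff_le_add, div_le_iff₀ hH0]
      nlinarith
    push_cast at h1
    have h5 : ((l : ℝ) + 1) * M / H = l * M / H + M / H := by ring
    rw [h5] at h1
    linarith
  have hb1 := hgr0 l (by omega)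
  have hb2 := hgr0 (l + 1) hlH
  have hp1 := hpsi (gr l) (hgM l (by omega))
  have hp2 := hpsi (gr (l + 1)) (hgM (l + 1) hlH)
  have hm1 := St_mono (k + 2) (gr l) X Lm Lm_nonneg a hlow
  have hm2 := St_mono (k + 2) X (gr (l + 1)) Lm Lm_nonneg a hhigh
  have hlowr : (gr l : ℝ) ≤ X := by exact_mod_cast hlow
  have hhighr : (X : ℝ) ≤ gr (l + 1) := by exact_mod_cast hhigh
  have key : ∀ y : ℕ, |∑ n ∈ Icc 1 y, Lm n - y| ≤ η * N → |(y : ℝ) - X| ≤ M / H + 1 →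
      |Tc (k + 1) a.natAbs * ((∑ n ∈ Icc 1 y, Lm n) * P) - Tc (k + 1) a.natAbs * ((X : ℝ) * P)| ≤ Cs * (η + G / H + 1 / N) * Q := by
    intro y h1 h2
    have e1 : Tc (k + 1) a.natAbs * ((∑ n ∈ Icc 1 y, Lm n) * P) - Tc (k + 1) a.natAbs * ((X : ℝ) * P) =
        Tc (k + 1) a.natAbs * (((∑ n ∈ Icc 1 y, Lm n - y) + (y - X)) * P) := by ring
    rw [e1, abs_mul, abs_mul, abs_of_nonneg hP0]
    have h3 : |(∑ n ∈ Icc 1 y, Lm n - (y : ℝ)) + ((y : ℝ) - X)| ≤ (η + G / H + 1 / N) * N := by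
      refine (abs_add_le _ _).trans ((add_le_add h1 h2).trans (le_of_eq ?_))
      rw [hMr]
      field_simp
      ring
    calc |Tc (k + 1) a.natAbs| * (|(∑ n ∈ Icc 1 y, Lm n - (y : ℝ)) + ((y : ℝ) - X)| * P) ≤ (Cs * sg a.natAbs) * (((η + G / H + 1 / N) * N) * L ^ (k + 1)) := by
          apply mul_le_mul hT _ (by positivity) (by positivity)
          exact mul_le_mul h3 hPL hP0 (by positivity)
      _ = _ := by rw [hQ]; ring
  have hk1 := key (gr l) hp1 (by rw [abs_le]; constructor <;> linarith)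
  have hk2 := key (gr (l + 1)) hp2 (by rw [abs_le]; constructor <;> linarith)
  rw [abs_le] at hb1 hb2 hk1 hk2 ⊢
  rw [add_mul]
  constructor <;> linarith

end Pool.Agent.V11290.TD
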