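import Pool.Agent.V11290.TD.T2

set_option autoImplicit false

/-! The constant as an Euler product. -/

namespace Pool.Agent.V11290.TD
open Finset
open Pool.Agent.TH212.DV
open Pool.Agent.V11290.TI

lemma kap_one (s : ℕ) : kap s 1 = 1 := by
  induction s with
  | zero => unfold kap; simp
  | succ s ih =>
    rw [kap_succ]
    simp [ih]

lemma kap_at_prime (s p : ℕ) (hp : p.Prime) : kap s p = 1 - (1 - 1 / (p : ℝ)) ^ s := by
  have hp2 : (2 : ℝ) ≤ p := by exact_mod_cast hp.two_le
  have hp0 : (0 : ℝ) < p := by linarith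
  induction s with
  | zero =>
    unfold kap
    rw [if_neg hp.one_lt.ne']
    simp
  | succ s ih =>
    rw [kap_succ]
    have h1 : ∑ b ∈ range p, kap s (p / Nat.gcd b p) = (p - 1) * kap s p + 1 := by
      obtain ⟨n, hn⟩ : ∃ n, p = n + 1 := ⟨p - 1, by have := hp.pos; omega⟩
      have h2 : ∑ b ∈ range p, kap s (p / Nat.gcd b p) = ∑ b ∈ range n, kap s (p / Nat.gcd (b + 1) p) + kap s (p / Nat.gcd 0 p) := by
        rw [hn, sum_range_succ']
      rw [h2]
      have h3 : ∀ b ∈ range n, kap s (p / Nat.gcd (b + 1) p) = kap s p := by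
        intro b hb
        rw [mem_range] at hb
        have h4 : Nat.Coprime (b + 1) p := by
          rw [Nat.coprime_comm]
          exact (Nat.Prime.coprime_iff_not_dvd hp).2 (fun h => by have := Nat.le_of_dvd (Nat.succ_pos b) h; omega)
        rw [Nat.coprime_iff_gcd_eq_one.1 h4, Nat.div_one]
      rw [sum_congr rfl h3, sum_const, card_range, nsmul_eq_mul]
      have e1 : (n : ℝ) = p - 1 := by rw [hn]; push_cast; ring
      rw [e1, Nat.gcd_zero_left, Nat.div_self hp.pos, kap_one]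
    rw [h1, ih, pow_succ]
    field_simp
    ring

/-- the local factor as an arithmetic function -/
noncomputable def FA (a : ℕ) : ArithmeticFunction ℝ := ⟨fun n => Fv a n, by unfold Fv; split_ifs <;> simp⟩

lemma FA_mult (a : ℕ) : (FA a).IsMultiplicative := by
  refine ⟨?_, ?_⟩
  · show Fv a 1 = 1
    unfold Fv
    simp
  · intro m n hmn
    show Fv a (m * n) = Fv a m * Fv a n
    unfold Fv
    by_cases h1 : m.Coprime a
    · by_cases h2 : n.Coprime a
      · rw [if_pos h1, if_pos h2, if_pos (Nat.Coprime.mul_left h1 h2), Nat.totient_mul hmn]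
        push_cast
        rw [div_mul_div_comm]
      · rw [if_neg h2, if_neg, mul_zero]
        intro h
        exact h2 (Nat.Coprime.coprime_mul_left h)
    · rw [if_neg h1, if_neg, zero_mul]
      intro h
      exact h1 (Nat.Coprime.coprime_mul_right h)

lemma ha_fun (a r : ℕ) : ha a r = (((ArithmeticFunction.moebius : ArithmeticFunction ℤ) : ArithmeticFunction ℝ) * FA a) r := by
  rw [← ha_anti, ArithmeticFunction.mul_apply]
  rfl

lemma ha_mult (a : ℕ) : (((ArithmeticFunction.moebius : ArithmeticFunction ℤ) : ArithmeticFunction ℝ) * FA a).IsMultiplicative :=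
  ArithmeticFunction.isMultiplicative_moebius.intCast.mul (FA_mult a)

lemma ha_one (a : ℕ) : ha a 1 = 1 := by
  rw [ha_fun]
  exact (ha_mult a).1

lemma ha_pow (a p e : ℕ) (hp : p.Prime) : ha a (p ^ (e + 1)) = Fv a (p ^ (e + 1)) - Fv a (p ^ e) := by
  have h1 := ha_sum a (p ^ (e + 1)) (Nat.pos_of_ne_zero (pow_ne_zero _ hp.ne_zero))
  have h2 := ha_sum a (p ^ e) (Nat.pos_of_ne_zero (pow_ne_zero _ hp.ne_zero))
  rw [Nat.sum_divisors_prime_pow hp] at h1 h2
  rw [sum_range_succ, h2] at h1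
  linarith

lemma ha_prime (a p : ℕ) (hp : p.Prime) : ha a p = if p ∣ a then -1 else 1 / ((p : ℝ) - 1) := by
  have h := ha_pow a p 0 hp
  rw [zero_add, pow_one, pow_zero] at h
  rw [h]
  have hp2 : (2 : ℝ) ≤ p := by exact_mod_cast hp.two_le
  unfold Fv
  rw [if_pos (Nat.coprime_one_left a), Nat.totient_one, Nat.totient_prime hp, Nat.cast_sub hp.one_lt.le]
  by_cases hd : p ∣ a
  · rw [if_pos hd, if_neg]
    · norm_num
    · intro hc
      exact (Nat.Prime.coprime_iff_not_dvd hp).1 hc hd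
  · rw [if_neg hd, if_pos ((Nat.Prime.coprime_iff_not_dvd hp).2 hd)]
    have : (p : ℝ) - 1 ≠ 0 := by linarith
    push_cast
    field_simp
    ring

lemma ha_high (a p e : ℕ) (hp : p.Prime) : ha a (p ^ (e + 2)) = 0 := by
  rw [show e + 2 = (e + 1) + 1 by ring, ha_pow a p (e + 1) hp]
  have hp2 : (2 : ℝ) ≤ p := by exact_mod_cast hp.two_le
  have h1 : ∀ n, Fv a (p ^ (n + 1)) = if p ∣ a then 0 else (p : ℝ) / (p - 1) := by
    intro n
    unfold Fv
    rw [Nat.totient_prime_pow_succ hp]
    by_cases hd : p ∣ a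
    · rw [if_pos hd, if_neg]
      intro hc
      exact (Nat.Prime.coprime_iff_not_dvd hp).1 (Nat.Coprime.of_dvd_left (dvd_pow_self p (Nat.succ_ne_zero n)) hc) hd
    · rw [if_neg hd, if_pos (Nat.Coprime.pow_left _ ((Nat.Prime.coprime_iff_not_dvd hp).2 hd))]
      push_cast [Nat.cast_sub hp.one_lt.le]
      have : (p : ℝ) - 1 ≠ 0 := by linarith
      have hp0 : (p : ℝ) ≠ 0 := by linarith
      field_simp
      ring
  rw [h1 (e + 1), h1 e, sub_self]

/-- the local factors of the constant -/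
noncomputable def fac (k a p : ℕ) : ℝ :=
  if p ∣ a then (1 - 1 / (p : ℝ)) ^ (k - 1) else 1 + (1 - (1 - 1 / (p : ℝ)) ^ (k - 1)) / ((p : ℝ) - 1)

theorem Tc_prod (t a : ℕ) (ha1 : 1 ≤ a) : HasProd (fun p : Nat.Primes => fac (t + 2) a p) (Tc (t + 1) a) := by
  obtain ⟨f, hf⟩ : ∃ f : ℕ → ℝ, f = fun q => kap (t + 1) q * ha a q := ⟨_, rfl⟩
  have hf0 : f 0 = 0 := by rw [hf]; simp only; rw [ha_zero, mul_zero]
  have loc : ∀ p : Nat.Primes, fac (t + 2) a p = ∑' e, f ((p : ℕ) ^ e) := by
    intro p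
    have hp := p.2
    have h2 : ∑' e, f ((p : ℕ) ^ e) = ∑ e ∈ range 2, f ((p : ℕ) ^ e) := by
      apply tsum_eq_sum
      intro e he
      rw [mem_range] at he
      obtain ⟨e', he'⟩ : ∃ e', e = e' + 2 := ⟨e - 2, by omega⟩
      rw [he', hf]
      simp only
      rw [ha_high a p e' hp, mul_zero]
    rw [h2, sum_range_succ, sum_range_one, pow_zero, pow_one, hf]
    simp only
    rw [kap_one, ha_one, kap_at_prime _ _ hp, ha_prime a p hp]
    unfold fac
    rw [show t + 2 - 1 = t + 1 by omega]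
    split_ifs
    · ring
    · ring
  have h := EulerProduct.eulerProduct_hasProd (f := f) (by rw [hf]; simp only; rw [kap_one, ha_one, mul_one]) (by
    intro m n hmn
    rcases Nat.eq_zero_or_pos m with hm | hm
    · rw [hm, zero_mul, hf0, zero_mul]
    rcases Nat.eq_zero_or_pos n with hn | hn
    · rw [hn, mul_zero, hf0, mul_zero]
    rw [hf]
    simp only
    rw [kap_mul (t + 1) m n hm hn hmn, ha_fun, ha_fun, ha_fun, (ha_mult a).2 hmn]
    ring) (by
    have h1 := (Tc_summable t a ha1).abs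
    rw [hf]
    exact h1) hf0
  have e1 : ∑' n, f n = Tc (t + 1) a := by rw [hf]; rfl
  rw [e1] at h
  have e2 : (fun p : Nat.Primes => fac (t + 2) a p) = fun p : Nat.Primes => ∑' e, f ((p : ℕ) ^ e) := by
    funext p
    exact loc p
  rw [e2]
  exact h

end Pool.Agent.V11290.TD
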