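import Pool.Agent.V11290.TD.T7
import Pool.Agent.V11290.TD.T8

set_option autoImplicit false

/-! The divisor problem of Titchmarsh for residues near `t α + s`, for all lengths. -/

namespace Pool.Agent.V11290.TD
open Finset
open MeasureTheory
open Pool.Agent.TH212.DV
open Pool.Agent.V11290.TI

theorem small_fin {J : Type} (T : J → ℝ) (hT2 : ∀ j, 2 ≤ T j) (V : ℕ) (hT : Summable fun j => 1 / Real.log (T j) ^ V) (Y : ℝ) :
    {j | T j < Y}.Finite := by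
  have h3 := hT.tendsto_cofinite_zero
  obtain ⟨c, hc⟩ : ∃ c, c = max 1 (Real.log Y) := ⟨_, rfl⟩
  have hc0 : 0 < c := by rw [hc]; exact lt_of_lt_of_le one_pos (le_max_left _ _)
  have h4 := h3.eventually (gt_mem_nhds (show (0 : ℝ) < 1 / c ^ V by positivity))
  rw [Filter.eventually_cofinite] at h4
  refine h4.subset ?_
  intro j hj
  rw [Set.mem_ofPred_eq] at hj ⊢
  rw [not_lt]
  have h5 : 0 < Real.log (T j) := Real.log_pos (by linarith [hT2 j])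
  have h6 : Real.log (T j) ≤ c := by
    rw [hc]
    exact (Real.log_le_log (by linarith [hT2 j]) hj.le).trans (le_max_right _ _)
  exact one_div_le_one_div_of_le (by positivity) (pow_le_pow_left₀ h5.le h6 V)

lemma scale_facts (G : ℕ) (hG : 1 ≤ G) (t : ℝ) (ht : Real.exp (Real.log G + G + 4) ≤ t) :
    2 ≤ t ∧ Real.log G + G + 4 ≤ Real.log t ∧ Real.log t ≤ Real.log (⌈t⌉₊ : ℝ) ∧ Real.log (⌈t⌉₊ : ℝ) ≤ Real.log t + 1 ∧
      Real.log ((G * ⌈t⌉₊ : ℕ) : ℝ) ≤ Real.log t ^ 2 := by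
  have hG0 : (0 : ℝ) < G := by exact_mod_cast hG
  have hlG : 0 ≤ Real.log (G : ℝ) := Real.log_natCast_nonneg G
  have h1 : (1 : ℝ) + (Real.log G + G + 4) ≤ t := by
    have := Real.add_one_le_exp (Real.log G + G + 4)
    linarith
  have ht2 : 2 ≤ t := by linarith
  have ht0 : 0 < t := by linarith
  have hl : Real.log G + G + 4 ≤ Real.log t := by
    rw [Real.le_log_iff_exp_le ht0]
    exact ht
  have hN1 : t ≤ (⌈t⌉₊ : ℝ) := Nat.le_ceil _
  have hN0 : (0 : ℝ) < ⌈t⌉₊ := by linarith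
  have hN2 : (⌈t⌉₊ : ℝ) ≤ 2 * t := by
    have := Nat.ceil_lt_add_one ht0.le
    linarith
  have hL : Real.log (⌈t⌉₊ : ℝ) ≤ Real.log t + 1 := by
    have h2 := Real.log_le_log hN0 hN2
    rw [Real.log_mul (by norm_num) ht0.ne'] at h2
    have h3 := Real.log_two_lt_d9
    linarith
  refine ⟨ht2, hl, Real.log_le_log ht0 hN1, hL, ?_⟩
  push_cast
  rw [Real.log_mul hG0.ne' hN0.ne']
  nlinarith

theorem lam_ae (μ : Measure ℝ) [IsProbabilityMeasure μ] (B : ℝ) (hμ : ∀ᵐ α ∂μ, |α| ≤ B)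
    (C σ : ℝ) (hσ : 0 < σ) (hdec : ∀ ξ : ℝ, 1 ≤ |ξ| → ‖charFun μ ξ‖ ≤ C * |ξ| ^ (-σ))
    (J : Type) (t s : J → ℝ) (ht : ∀ j, 2 ≤ t j) (hs : ∀ j, |s j| ≤ B * t j)
    (hsum : ∃ V : ℕ, Summable fun j => 1 / Real.log (t j) ^ V) (G k : ℕ) (hG1 : 1 ≤ G) :
    ∀ᵐ α ∂μ, ∀ (A : ℕ) (ε : ℝ), 0 < ε →
      {j | ¬ ∀ a : ℤ, a ≠ 0 → |(a : ℝ) - (t j * α + s j)| ≤ Real.log (t j) ^ A → ∀ X : ℕ, X ≤ G * ⌈t j⌉₊ →
        |St (k + 2) X Lm a - Tc (k + 1) a.natAbs * ((X : ℝ) * (Real.log ⌈t j⌉₊ ^ (k + 1) / ((k + 1).factorial : ℕ)))| ≤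
          ε * (sg a.natAbs * ⌈t j⌉₊ * Real.log ⌈t j⌉₊ ^ (k + 1))}.Finite := by
  classical
  obtain ⟨V₀, hV₀⟩ := id hsum
  obtain ⟨Cs, hCs, hTc⟩ := Tc_tail k
  obtain ⟨n0, h0⟩ := psi_close
  have hG0 : (1 : ℝ) ≤ G := by exact_mod_cast hG1
  have hlG : 0 ≤ Real.log (G : ℝ) := Real.log_natCast_nonneg G
  obtain ⟨t₁, ht₁⟩ : ∃ t₁ : ℝ, t₁ = max (Real.exp (Real.log G + G + 4)) n0 := ⟨_, rfl⟩
  have hpsi : ∀ τ : ℝ, t₁ ≤ τ → ∀ y : ℕ, y ≤ G * ⌈τ⌉₊ → |∑ n ∈ Icc 1 y, Lm n - y| ≤ G / Real.log ⌈τ⌉₊ * ⌈τ⌉₊ := by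
    intro τ hτ y hy
    have hτ1 : Real.exp (Real.log G + G + 4) ≤ τ := by rw [ht₁] at hτ; exact (le_max_left _ _).trans hτ
    have hτ2 : (n0 : ℝ) ≤ τ := by rw [ht₁] at hτ; exact (le_max_right _ _).trans hτ
    obtain ⟨f1, f2, f3, f4, f5⟩ := scale_facts G hG1 τ hτ1
    have hNn : n0 ≤ G * ⌈τ⌉₊ := by
      have h1 : (n0 : ℝ) ≤ (⌈τ⌉₊ : ℝ) := hτ2.trans (Nat.le_ceil _)
      have h2 : n0 ≤ ⌈τ⌉₊ := by exact_mod_cast h1
      exact h2.trans (Nat.le_mul_of_pos_left _ hG1)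
    refine (h0 (G * ⌈τ⌉₊) hNn y hy).trans ?_
    have hN0 : (0 : ℝ) < ⌈τ⌉₊ := by
      have := Nat.le_ceil τ
      linarith
    have hL0 : 0 < Real.log (⌈τ⌉₊ : ℝ) := by linarith
    have hL1 : Real.log (⌈τ⌉₊ : ℝ) ≤ Real.log ((G * ⌈τ⌉₊ : ℕ) : ℝ) := by
      apply Real.log_le_log hN0
      exact_mod_cast Nat.le_mul_of_pos_left _ hG1
    calc ((G * ⌈τ⌉₊ : ℕ) : ℝ) / Real.log ((G * ⌈τ⌉₊ : ℕ) : ℝ) ≤ ((G * ⌈τ⌉₊ : ℕ) : ℝ) / Real.log (⌈τ⌉₊ : ℝ) :=
          div_le_div_of_nonneg_left (Nat.cast_nonneg _) hL0 hL1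
      _ = _ := by push_cast; ring
  -- the grid
  obtain ⟨H, hH⟩ : ∃ H : J → ℕ, H = fun j => ⌊Real.log (t j)⌋₊ := ⟨_, rfl⟩
  have hXle : ∀ j, ∀ l : ℕ, l < H j → (l + 1) * (G * ⌈t j⌉₊) / H j ≤ G * ⌈t j⌉₊ := by
    intro j l hl
    calc (l + 1) * (G * ⌈t j⌉₊) / H j ≤ H j * (G * ⌈t j⌉₊) / H j := Nat.div_le_div_right (Nat.mul_le_mul_right _ (by omega))
      _ = G * ⌈t j⌉₊ := Nat.mul_div_cancel_left _ (by omega)
  have hae := tm_ae μ B hμ C σ hσ hdec J t s ht hs hsum (G + 1) 2 k t₁ H (by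
      intro j hj
      have hτ1 : Real.exp (Real.log G + G + 4) ≤ t j := by rw [ht₁] at hj; exact (le_max_left _ _).trans hj
      obtain ⟨f1, f2, f3, f4, f5⟩ := scale_facts G hG1 (t j) hτ1
      rw [hH]
      simp only
      refine (Nat.floor_le (by linarith)).trans ?_
      nlinarith) (fun j l => ((l : ℕ) + 1) * (G * ⌈t j⌉₊) / H j) (by
      intro j hj l
      refine (hXle j l l.2).trans ?_
      exact Nat.mul_le_mul_right _ (by omega)) (fun _ _ => Lm) (by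
      intro j hj l n hn
      have hτ1 : Real.exp (Real.log G + G + 4) ≤ t j := by rw [ht₁] at hj; exact (le_max_left _ _).trans hj
      obtain ⟨f1, f2, f3, f4, f5⟩ := scale_facts G hG1 (t j) hτ1
      rw [mem_Icc] at hn
      refine ⟨Lm_nonneg n, ?_⟩
      unfold Lm
      refine ArithmeticFunction.vonMangoldt_le_log.trans (le_trans ?_ f5)
      apply Real.log_le_log (by exact_mod_cast hn.1)
      exact_mod_cast hn.2.trans (hXle j l l.2)) (by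
      intro j hj l
      have hτ1 : Real.exp (Real.log G + G + 4) ≤ t j := by rw [ht₁] at hj; exact (le_max_left _ _).trans hj
      obtain ⟨f1, f2, f3, f4, f5⟩ := scale_facts G hG1 (t j) hτ1
      have h1 := hpsi (t j) hj _ (hXle j l l.2)
      have h2 : (((l : ℕ) + 1) * (G * ⌈t j⌉₊) / H j : ℕ) ≤ ((G * ⌈t j⌉₊ : ℕ) : ℝ) := by exact_mod_cast hXle j l l.2
      have hN0 : (0 : ℝ) ≤ ⌈t j⌉₊ := Nat.cast_nonneg _
      have h3 : (G : ℝ) / Real.log ⌈t j⌉₊ ≤ 1 := by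
        rw [div_le_one (by linarith)]
        linarith
      have h4 := (abs_le.1 h1).2
      push_cast at h2 h4 ⊢
      nlinarith)
  filter_upwards [hae] with α hα A ε hε
  obtain ⟨i, hi⟩ := exists_nat_one_div_lt (show (0 : ℝ) < ε / 2 by linarith)
  obtain ⟨E, V, hfin⟩ := hα A i
  obtain ⟨n2, h2⟩ := lam_sw G E V
  obtain ⟨Y, hY⟩ : ∃ Y : ℝ, Y = max (max t₁ n2) (Real.exp (2 * (Cs * (4 * G + 1)) / ε)) := ⟨_, rfl⟩
  refine (hfin.union (small_fin t ht V₀ hV₀ Y)).subset ?_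
  intro j hj
  by_cases hsm : t j < Y
  · exact Or.inr hsm
  left
  rw [Set.mem_ofPred_eq] at hj ⊢
  intro hall
  apply hj
  intro a ha0 ha X hX
  rw [not_lt, hY] at hsm
  have hj1 : t₁ ≤ t j := ((le_max_left _ _).trans (le_max_left _ _)).trans hsm
  have hj2 : (n2 : ℝ) ≤ t j := ((le_max_right _ _).trans (le_max_left _ _)).trans hsm
  have hj3 : Real.exp (2 * (Cs * (4 * G + 1)) / ε) ≤ t j := (le_max_right _ _).trans hsm
  have hτ1 : Real.exp (Real.log G + G + 4) ≤ t j := by rw [ht₁] at hj1; exact (le_max_left _ _).trans hj1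
  obtain ⟨f1, f2, f3, f4, f5⟩ := scale_facts G hG1 (t j) hτ1
  have hNt : t j ≤ (⌈t j⌉₊ : ℝ) := Nat.le_ceil _
  have hn2 : n2 ≤ ⌈t j⌉₊ := by
    have : (n2 : ℝ) ≤ ⌈t j⌉₊ := hj2.trans hNt
    exact_mod_cast this
  have hN1 : 1 ≤ ⌈t j⌉₊ := Nat.ceil_pos.2 (by linarith)
  obtain ⟨L, hL⟩ : ∃ L, L = Real.log (⌈t j⌉₊ : ℝ) := ⟨_, rfl⟩
  have hHj : H j = ⌊Real.log (t j)⌋₊ := by rw [hH]
  have hH1 : L ≤ 2 * (H j : ℝ) := by
    have h5 := Nat.lt_floor_add_one (Real.log (t j))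
    rw [← hHj] at h5
    rw [hL]
    linarith
  have hL4 : 4 ≤ L := by rw [hL]; linarith
  have hL0 : 0 < L := by linarith
  have hHpos : (0 : ℝ) < H j := by linarith
  have hHn : 1 ≤ H j := by
    rcases Nat.eq_zero_or_pos (H j) with h | h
    · rw [h, Nat.cast_zero] at hHpos
      exact absurd hHpos (lt_irrefl _)
    · exact h
  have hcon := grid k Cs hCs (fun H hH => (hTc H hH).1) G ⌈t j⌉₊ (H j) hG1 hN1 hHn L (1 / ((i : ℝ) + 1)) (G / L) (by linarith) (by positivity) a ha0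
    (by
      intro y hy
      have := hpsi (t j) hj1 y hy
      rw [← hL] at this
      exact this)
    (by
      intro l hl
      have h5 := hall a ha0 ha ⟨l, hl⟩ (by
        have := h2 ⌈t j⌉₊ hn2 ((l + 1) * (G * ⌈t j⌉₊) / H j) (hXle j l hl)
        exact this)
      rw [← hL] at h5
      exact h5) X hX
  rw [← hL]
  refine hcon.trans ?_
  apply mul_le_mul_of_nonneg_right
  · rw [abs_of_pos (by positivity)]
    have h6 : (1 : ℝ) / ⌈t j⌉₊ ≤ 1 / L := by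
      apply one_div_le_one_div_of_le hL0
      rw [hL]
      have : (0 : ℝ) < ⌈t j⌉₊ := by linarith
      have h8 := Real.log_le_sub_one_of_pos this
      linarith
    have h7 : (G : ℝ) / H j ≤ 2 * G / L := by
      rw [div_le_div_iff₀ hHpos hL0]
      nlinarith
    have h8 : Cs * (G / L + G / H j + 1 / ⌈t j⌉₊) ≤ Cs * (4 * G + 1) / L := by
      calc Cs * (G / L + G / H j + 1 / ⌈t j⌉₊) ≤ Cs * (G / L + 2 * G / L + 1 / L) := by
            apply mul_le_mul_of_nonneg_left _ hCs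
            linarith
        _ = Cs * (3 * G + 1) / L := by ring
        _ ≤ _ := by
            apply div_le_div_of_nonneg_right _ hL0.le
            apply mul_le_mul_of_nonneg_left _ hCs
            linarith
    have h9 : 2 * (Cs * (4 * G + 1)) / ε ≤ L := by
      have h10 : 2 * (Cs * (4 * G + 1)) / ε ≤ Real.log (t j) := by
        rw [Real.le_log_iff_exp_le (by linarith)]
        exact hj3
      rw [hL]
      linarith
    have h11 : Cs * (4 * G + 1) / L ≤ ε / 2 := by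
      rw [div_le_iff₀ hε] at h9
      rw [div_le_iff₀ hL0]
      linarith
    linarith
  · have := sg_nonneg a.natAbs
    positivity

end Pool.Agent.V11290.TD
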